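import Mathlib

/-!
Project GB: a bounded convex planar domain carrying a nontrivial solution of Schiffer's
overdetermined problem with `√λ · diam < 4π` is a disc.

Statements of the building blocks (frequency `√λ = 1`).
-/

set_option autoImplicit false

namespace Pool.Agent.TH298.GB

open MeasureTheory Set Real

/-- the chord function of a convex body in one direction: nonnegative, concave and continuous on
`[a, b]`, orthogonal to `cos` and `sin` -/
structure Prof (a b : ℝ) (s : ℝ → ℝ) : Prop where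
  lt : a < b
  conc : ConcaveOn ℝ (Icc a b) s
  cont : ContinuousOn s (Icc a b)
  nonneg : ∀ t ∈ Icc a b, 0 ≤ s t
  fcos : ∫ t in a..b, s t * cos t = 0
  fsin : ∫ t in a..b, s t * sin t = 0

/-- the basic certificate lemma -/
def Gen : Prop :=
  ∀ (b : ℝ) (s Z Z1 Z2 : ℝ → ℝ), 0 < b → ConcaveOn ℝ (Icc 0 b) s → ContinuousOn s (Icc 0 b) →
    0 ≤ s 0 → 0 ≤ s b → (∀ t, HasDerivAt Z (Z1 t) t) → (∀ t, HasDerivAt Z1 (Z2 t) t) →
    Continuous Z2 → (∀ t ∈ Icc 0 b, Z t ≤ 0) → Z b = 0 → (Z 0 = 0 ∨ AntitoneOn s (Icc 0 b)) →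
    -(s 0 * Z1 0) ≤ ∫ t in (0 : ℝ)..b, s t * Z2 t

/-- every chord is at most `area / 5.38` -/
def G2 : Prop :=
  ∀ (a b : ℝ) (s : ℝ → ℝ), Prof a b s → 2 * π ≤ b - a →
    ∀ t ∈ Icc a b, 5.38 * s t ≤ ∫ x in a..b, s x

/-- the distance of the centroid from an end is at least `d` if the width is at least `w` -/
def Near (w d : ℝ) : Prop :=
  ∀ (a b : ℝ) (s : ℝ → ℝ), Prof a b s → w ≤ b - a → b - a ≤ 4 * π →
    (d * ∫ x in a..b, s x) ≤ ∫ x in a..b, (x - a) * s x

/-- the distance of the centroid from an end is at most `R` if the width is in `[l0, l1]` -/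
def Far (l0 l1 R : ℝ) : Prop :=
  ∀ (a b : ℝ) (s : ℝ → ℝ), Prof a b s → l0 ≤ b - a → b - a ≤ l1 →
    (∫ x in a..b, (b - x) * s x) ≤ R * ∫ x in a..b, s x

/-- the area of a convex set between the discs of radius `r` and `R` whose Fourier transform
vanishes on the unit circle is less than `C` -/
def Area (r R C : ℝ) : Prop :=
  ∀ Ω : Set ℂ, IsOpen Ω → Convex ℝ Ω → Bornology.IsBounded Ω →
    (∀ ξ : ℂ, ‖ξ‖ = 1 → ∫ x in Ω, cos (inner ℝ ξ x) = 0) →
    Metric.ball (0 : ℂ) r ⊆ Ω → (∀ x ∈ Ω, ‖x‖ ≤ R) → (volume Ω).toReal < C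

end Pool.Agent.TH298.GB
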