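import Mathlib
import Pool.Agent.TH298.GB.Defs

/-!
Project GB: statements of the geometric part (frequency `√λ = 1`, centroid at the origin).
-/

set_option autoImplicit false

namespace Pool.Agent.TH298.GB

open MeasureTheory Set Real

/-- open bounded convex set whose Fourier transform vanishes on the unit circle and whose centroid
is the origin -/
structure FT1 (Ω : Set ℂ) : Prop where
  op : IsOpen Ω
  conv : Convex ℝ Ω
  bdd : Bornology.IsBounded Ω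
  ne : Ω.Nonempty
  fcos : ∀ ξ : ℂ, ‖ξ‖ = 1 → ∫ x in Ω, cos (inner ℝ ξ x) = 0
  fsin : ∀ ξ : ℂ, ‖ξ‖ = 1 → ∫ x in Ω, sin (inner ℝ ξ x) = 0
  cre : ∫ x in Ω, x.re = 0
  cim : ∫ x in Ω, x.im = 0

/-- `s` is the length of the chord `{x : ⟪u, x⟫ = t}` of the closure of `Ω` -/
structure PD (Ω : Set ℂ) (u : ℂ) (a b : ℝ) (s : ℝ → ℝ) : Prop where
  prof : Prof a b s
  mem : ∀ x ∈ Ω, a < inner ℝ u x ∧ inner ℝ u x < b
  full : ∀ t ∈ Ioo a b, ∃ x ∈ Ω, inner ℝ u x = t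
  area : ∫ t in a..b, s t = (volume Ω).toReal
  cen : ∫ t in a..b, t * s t = 0
  chord : ∀ P ∈ closure Ω, ∀ Q ∈ closure Ω, inner ℝ u P = inner ℝ u Q →
    ∃ t ∈ Icc a b, ‖P - Q‖ ≤ s t
  attained : ∀ t ∈ Icc a b, ∃ P ∈ closure Ω, P + (s t : ℂ) * (Complex.I * u) ∈ closure Ω

/-- PROF: the profiles exist -/
def ProfOf : Prop :=
  ∀ Ω : Set ℂ, FT1 Ω → ∀ u : ℂ, ‖u‖ = 1 → ∃ (a b : ℝ) (s : ℝ → ℝ), PD Ω u a b s

/-- GEO: the circumradius bound about the centroid -/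
def Geo : Prop :=
  ∀ Ω : Set ℂ, FT1 Ω → Metric.diam Ω < 4 * π → ∀ x ∈ Ω, ‖x‖ ≤ 5.115

end Pool.Agent.TH298.GB
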