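import Mathlib
import Pool.Agent.TH298.Sch.Lim2
import Pool.Agent.TH298.Sch.Two
import Pool.Agent.TH298.GB.Defs2

/-!
The final assembly of project GB: translation to the centroid, scaling, conclusion.
-/

set_option autoImplicit false

namespace Pool.Agent.TH298.GB

open MeasureTheory Set Real Filter Topology Metric Pool.Agent.TH298.Sch
open scoped ContDiff

variable {Ω : Set ℂ} {lam c : ℝ} {u : ℂ → ℝ} {G : ℂ → ℂ}

theorem mp_tr (p : ℂ) : MeasurePreserving (fun x : ℂ => x + p) volume volume :=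
  measurePreserving_add_right volume p

theorem me_tr (p : ℂ) : MeasurableEmbedding (fun x : ℂ => x + p) :=
  (MeasurableEquiv.addRight p).measurableEmbedding

theorem int_tr (p : ℂ) (Ω : Set ℂ) (g : ℂ → ℝ) :
    ∫ x in (fun x : ℂ => x + p) ⁻¹' Ω, g (x + p) = ∫ x in Ω, g x :=
  (mp_tr p).setIntegral_preimage_emb (me_tr p) g Ω

/-- translation of a solution -/
theorem trans_sol (h : Sol Ω lam c u G) (hm : MeasurableSet Ω) (p : ℂ) :
    Sol ((fun x : ℂ => x + p) ⁻¹' Ω) lam c (fun x => u (x + p)) (fun x => G (x + p)) := by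
  have hmp := (mp_tr p).restrict_preimage hm
  have hfd : ∀ (φ : ℂ → ℝ) (x : ℂ), fderiv ℝ (fun y => φ (y - p)) (x + p) = fderiv ℝ φ x := by
    intro φ x
    rw [fderiv_comp_sub]
    simp
  have hsc : ∀ φ : ℂ → ℝ, ContDiff ℝ 1 φ → HasCompactSupport φ →
      ContDiff ℝ 1 (fun y => φ (y - p)) ∧ HasCompactSupport (fun y => φ (y - p)) := by
    intro φ h1 h2
    refine ⟨h1.comp (contDiff_id.sub contDiff_const), ?_⟩
    exact h2.comp_homeomorph (Homeomorph.subRight p)
  refine ⟨h.u2.comp_measurePreserving hmp, h.G2.comp_measurePreserving hmp, ?_, ?_⟩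
  · intro φ hφ hφc v
    obtain ⟨k1, k2⟩ := hsc φ hφ hφc
    have h1 := h.h1 _ k1 k2 v
    rw [← int_tr p Ω (fun x => (u x - c) * fderiv ℝ (fun y => φ (y - p)) x v),
      ← int_tr p Ω (fun x => inner ℝ (G x) v * φ (x - p))] at h1
    simp only [hfd, add_sub_cancel_right] at h1
    exact h1
  · intro φ hφ hφc
    obtain ⟨k1, k2⟩ := hsc φ hφ hφc
    have h1 := h.h2 _ k1 k2
    rw [← int_tr p Ω (fun x => fderiv ℝ (fun y => φ (y - p)) x (G x)),
      ← int_tr p Ω (fun x => u x * φ (x - p))] at h1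
    simp only [hfd, add_sub_cancel_right] at h1
    exact h1

theorem fin_thm (hgeo : Geo)
    (hcomp : ∀ S : ℝ, S ≤ 6.57 → ∃ z z1 z2 : ℝ → ℝ, Comp 2 S z z1 z2)
    (ho : IsOpen Ω) (hcv : Convex ℝ Ω) (hb : Bornology.IsBounded Ω) (hne : Ω.Nonempty)
    (hlam : 0 < lam) (hd : √lam * diam Ω < 4 * π)
    (h : Sol Ω lam c u G) (hu0 : ¬ (u =ᵐ[volume.restrict Ω] 0)) :
    ∃ (p : ℂ) (r : ℝ), 0 < r ∧ Ω = ball p r := by
  have hm := ho.measurableSet
  have hc := h.c_ne hb hm hlam hu0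
  have hk : 0 < √lam := Real.sqrt_pos.2 hlam
  have hkk : √lam ^ 2 = lam := Real.sq_sqrt hlam.le
  obtain ⟨k, hkd⟩ : ∃ k, k = √lam := ⟨_, rfl⟩
  rw [← hkd] at hk hkk hd
  have hft : ∀ ξ : ℂ, ‖ξ‖ = k → ∫ x in Ω, Real.cos (inner ℝ ξ x) = 0 ∧
      ∫ x in Ω, Real.sin (inner ℝ ξ x) = 0 := by
    intro ξ hξ
    exact Pool.Agent.W632.Schiffer.ft_zero hb hm hlam h.u2 h.h1 h.h2 hu0 ξ (by rw [hξ, hkk])
  have hfin : IsFiniteMeasure (volume.restrict Ω) := Sol.fin hb
  obtain ⟨A, hA⟩ : ∃ A, A = (volume Ω).toReal := ⟨_, rfl⟩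
  have hA0 : 0 < A := by
    rw [hA]
    exact ENNReal.toReal_pos (ho.measure_pos volume hne).ne' hb.measure_lt_top.ne
  obtain ⟨R0, hR0⟩ := hb.exists_norm_le
  have hir : IntegrableOn (fun x : ℂ => x.re) Ω := by
    refine Measure.integrableOn_of_bounded (M := R0) hb.measure_lt_top.ne
      Complex.continuous_re.aestronglyMeasurable ?_
    filter_upwards [ae_restrict_mem hm] with x hx
    exact (Complex.abs_re_le_norm x).trans (hR0 x hx)
  have hii : IntegrableOn (fun x : ℂ => x.im) Ω := by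
    refine Measure.integrableOn_of_bounded (M := R0) hb.measure_lt_top.ne
      Complex.continuous_im.aestronglyMeasurable ?_
    filter_upwards [ae_restrict_mem hm] with x hx
    exact (Complex.abs_im_le_norm x).trans (hR0 x hx)
  obtain ⟨p, hp⟩ : ∃ p : ℂ, p = ⟨(∫ x in Ω, x.re) / A, (∫ x in Ω, x.im) / A⟩ := ⟨_, rfl⟩
  obtain ⟨Ω1, hΩ1⟩ : ∃ Ω1, Ω1 = (fun x : ℂ => x + p) ⁻¹' Ω := ⟨_, rfl⟩
  have hmem : ∀ x, x ∈ Ω1 ↔ x + p ∈ Ω := fun x => by rw [hΩ1]; rfl
  have ho1 : IsOpen Ω1 := by rw [hΩ1]; exact ho.preimage (by fun_prop)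
  have hcv1 : Convex ℝ Ω1 := by
    rw [hΩ1]
    exact hcv.translate_preimage_left p
  have hb1 : Bornology.IsBounded Ω1 := by
    refine (isBounded_closedBall (x := (0 : ℂ)) (r := R0 + ‖p‖)).subset fun x hx => ?_
    rw [mem_closedBall_zero_iff]
    have h1 := hR0 _ ((hmem x).1 hx)
    have h2 : ‖x‖ ≤ ‖x + p‖ + ‖p‖ := by
      have := norm_sub_le (x + p) p
      rwa [add_sub_cancel_right] at this
    linarith
  have hne1 : Ω1.Nonempty := by
    obtain ⟨x, hx⟩ := hne
    exact ⟨x - p, (hmem _).2 (by rwa [sub_add_cancel])⟩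
  have hm1 := ho1.measurableSet
  have hsol1 : Sol Ω1 lam c (fun x => u (x + p)) (fun x => G (x + p)) := by
    rw [hΩ1]
    exact trans_sol h hm p
  have hint : ∀ g : ℂ → ℝ, ∫ x in Ω1, g (x + p) = ∫ x in Ω, g x := by
    intro g
    rw [hΩ1]
    exact int_tr p Ω g
  have hcr : ∫ x in Ω1, x.re = 0 := by
    have h1 := hint (fun x => x.re - p.re)
    simp only [Complex.add_re, add_sub_cancel_right] at h1
    rw [h1, integral_sub hir (integrable_const _)]
    simp only [integral_const, smul_eq_mul, measureReal_def, Measure.restrict_apply_univ]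
    rw [← hA, hp]
    simp only []
    field_simp
    ring
  have hci : ∫ x in Ω1, x.im = 0 := by
    have h1 := hint (fun x => x.im - p.im)
    simp only [Complex.add_im, add_sub_cancel_right] at h1
    rw [h1, integral_sub hii (integrable_const _)]
    simp only [integral_const, smul_eq_mul, measureReal_def, Measure.restrict_apply_univ]
    rw [← hA, hp]
    simp only []
    field_simp
    ring
  have hcs : ∀ ξ : ℂ, IntegrableOn (fun x => Real.cos (inner ℝ ξ x)) Ω ∧
      IntegrableOn (fun x => Real.sin (inner ℝ ξ x)) Ω := by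
    intro ξ
    constructor
    · refine Measure.integrableOn_of_bounded (M := 1) hb.measure_lt_top.ne
        (by fun_prop : Continuous fun x : ℂ => Real.cos (inner ℝ ξ x)).aestronglyMeasurable ?_
      exact Eventually.of_forall fun x => Real.abs_cos_le_one _
    · refine Measure.integrableOn_of_bounded (M := 1) hb.measure_lt_top.ne
        (by fun_prop : Continuous fun x : ℂ => Real.sin (inner ℝ ξ x)).aestronglyMeasurable ?_
      exact Eventually.of_forall fun x => Real.abs_sin_le_one _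
  have hft1 : ∀ ξ : ℂ, ‖ξ‖ = k → ∫ x in Ω1, Real.cos (inner ℝ ξ x) = 0 ∧
      ∫ x in Ω1, Real.sin (inner ℝ ξ x) = 0 := by
    intro ξ hξ
    obtain ⟨i1, i2⟩ := hcs ξ
    obtain ⟨z1, z2⟩ := hft ξ hξ
    constructor
    · have h1 := hint (fun x => Real.cos (inner ℝ ξ (x - p)))
      simp only [add_sub_cancel_right] at h1
      rw [h1]
      have h2 : ∀ x : ℂ, Real.cos (inner ℝ ξ (x - p)) =
          Real.cos (inner ℝ ξ x) * Real.cos (inner ℝ ξ p) +
            Real.sin (inner ℝ ξ x) * Real.sin (inner ℝ ξ p) := by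
        intro x
        rw [inner_sub_right, Real.cos_sub]
      simp only [h2]
      rw [integral_add (i1.mul_const _) (i2.mul_const _), integral_mul_const, integral_mul_const,
        z1, z2, zero_mul, zero_mul, add_zero]
    · have h1 := hint (fun x => Real.sin (inner ℝ ξ (x - p)))
      simp only [add_sub_cancel_right] at h1
      rw [h1]
      have h2 : ∀ x : ℂ, Real.sin (inner ℝ ξ (x - p)) =
          Real.sin (inner ℝ ξ x) * Real.cos (inner ℝ ξ p) -
            Real.cos (inner ℝ ξ x) * Real.sin (inner ℝ ξ p) := by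
        intro x
        rw [inner_sub_right, Real.sin_sub]
      simp only [h2]
      rw [integral_sub (i2.mul_const _) (i1.mul_const _), integral_mul_const, integral_mul_const,
        z1, z2, zero_mul, zero_mul, sub_zero]
  -- the scaled set
  have hro : ro 0 = 1 := by
    unfold ro
    simp
  obtain ⟨Ω2, hΩ2⟩ : ∃ Ω2, Ω2 = PP Ω1 k 0 := ⟨_, rfl⟩
  have hmem2 : ∀ z, z ∈ Ω2 ↔ (k⁻¹ : ℝ) • z ∈ Ω1 := by
    intro z
    rw [hΩ2]
    change ro 0 * ((k⁻¹ : ℝ) • z) ∈ Ω1 ↔ _
    rw [hro, one_mul]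
  have hPint : ∀ g : ℂ → ℝ, ∫ z in Ω2, g z = k ^ 2 * ∫ x in Ω1, g (k • x) := by
    intro g
    rw [hΩ2, PP_int hm1 hk 0 g, hro]
    simp
  have hfr : ∀ ξ x : ℂ, inner ℝ ξ (k • x) = inner ℝ (k • ξ) x := by
    intro ξ x
    rw [inner_smul_right, real_inner_smul_left]
  have hdist : ∀ z ∈ Ω2, ∀ w ∈ Ω2, dist z w ≤ k * diam Ω := by
    intro z hz w hw
    have h1 := dist_le_diam_of_mem hb ((hmem _).1 ((hmem2 z).1 hz)) ((hmem _).1 ((hmem2 w).1 hw))
    rw [dist_add_right, dist_smul₀, Real.norm_eq_abs, abs_of_pos (inv_pos.2 hk),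
      inv_mul_le_iff₀ hk] at h1
    exact h1
  have hdn : 0 ≤ k * diam Ω := mul_nonneg hk.le diam_nonneg
  have hFT : FT1 Ω2 := by
    refine ⟨?_, ?_, ?_, ?_, ?_, ?_, ?_, ?_⟩
    · have : Ω2 = (fun z : ℂ => (k⁻¹ : ℝ) • z) ⁻¹' Ω1 := by
        ext z
        exact hmem2 z
      rw [this]
      exact ho1.preimage (by fun_prop)
    · intro z hz w hw a b ha hb' hab
      rw [hmem2] at hz hw ⊢
      have h1 := hcv1 hz hw ha hb' hab
      rwa [smul_comm a, smul_comm b, ← smul_add] at h1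
    · exact Metric.isBounded_iff.2 ⟨_, fun z hz w hw => hdist z hz w hw⟩
    · obtain ⟨x, hx⟩ := hne1
      refine ⟨k • x, (hmem2 _).2 ?_⟩
      rwa [smul_smul, inv_mul_cancel₀ hk.ne', one_smul]
    · intro ξ hξ
      rw [hPint]
      simp only [hfr]
      rw [(hft1 (k • ξ) (by rw [norm_smul, hξ, mul_one, Real.norm_eq_abs, abs_of_pos hk])).1,
        mul_zero]
    · intro ξ hξ
      rw [hPint]
      simp only [hfr]
      rw [(hft1 (k • ξ) (by rw [norm_smul, hξ, mul_one, Real.norm_eq_abs, abs_of_pos hk])).2,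
        mul_zero]
    · rw [hPint]
      simp only [Complex.smul_re, smul_eq_mul]
      rw [integral_const_mul, hcr, mul_zero, mul_zero]
    · rw [hPint]
      simp only [Complex.smul_im, smul_eq_mul]
      rw [integral_const_mul, hci, mul_zero, mul_zero]
  have hR2 := hgeo Ω2 hFT (lt_of_le_of_lt (diam_le_of_forall_dist_le hdn hdist) hd)
  have hR1 : ∀ x ∈ Ω1, ‖x‖ ≤ 5.115 / k := by
    intro x hx
    have h1 := hR2 (k • x) ((hmem2 _).2 (by rwa [smul_smul, inv_mul_cancel₀ hk.ne', one_smul]))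
    rw [norm_smul, Real.norm_eq_abs, abs_of_pos hk] at h1
    rw [le_div_iff₀ hk]
    linarith
  obtain ⟨z, z1, z2, hz⟩ := hcomp (1.001 * lam * (5.12 / k) ^ 2 / 4) (by
    rw [div_pow, hkk]
    have : 1.001 * lam * (5.12 ^ 2 / lam) / 4 = 1.001 * 5.12 ^ 2 / 4 := by
      field_simp
    rw [this]
    norm_num)
  have hrz : ∀ ψ, SC ψ → ∫ x in Ω1, Lr ψ x = 0 := fun ψ hψ =>
    rot_zero2 ho1 (hcv1.addHaar_frontier volume) hR1
      (show 5.115 / k < 5.12 / k by
        apply div_lt_div_of_pos_right _ hk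
        norm_num)
      (by positivity) hlam (show lam < 1.001 * lam by linarith) hz hsol1 hc hcr hci hψ
  obtain ⟨r, hr, hball⟩ := ball_of_rot ho1 hb1 hcv1 hne1 fun t x hx => rot_inv ho1 hb1 hrz t hx
  refine ⟨p, r, hr, ?_⟩
  ext x
  have h1 : x ∈ Ω ↔ x - p ∈ Ω1 := by
    rw [hmem, sub_add_cancel]
  rw [h1, hball, mem_ball_zero_iff, mem_ball_iff_norm]

end Pool.Agent.TH298.GB
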