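import Pool.Agent.TH298.GB.Defs

/-!
Area bounds for convex planar sets whose Fourier transform vanishes on the unit circle
(written by helper312 for project GB of helper298, job 3381).
-/

set_option autoImplicit false
set_option linter.unusedSimpArgs false

namespace Pool.Agent.TH298.GB.AREAf

open MeasureTheory Set Real
open Pool.Agent.TH298.GB

/-- Taylor polynomials of the cosine -/
noncomputable def Ct (n : ℕ) (u : ℝ) : ℝ :=
  ∑ k ∈ Finset.range (n + 1), (-1) ^ k * u ^ (2 * k) / ((2 * k).factorial : ℝ)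

/-- Taylor polynomials of the sine -/
noncomputable def St (n : ℕ) (u : ℝ) : ℝ :=
  ∑ k ∈ Finset.range (n + 1), (-1) ^ k * u ^ (2 * k + 1) / ((2 * k + 1).factorial : ℝ)

theorem Ct_zero (u : ℝ) : Ct 0 u = 1 := by simp [Ct]
theorem St_zero (u : ℝ) : St 0 u = u := by simp [St]

theorem Ct_succ (n : ℕ) (u : ℝ) : Ct (n + 1) u = Ct n u +
    (-1) ^ (n + 1) * u ^ (2 * (n + 1)) / ((2 * (n + 1)).factorial : ℝ) := by
  rw [Ct, Finset.sum_range_succ]; rfl

theorem St_succ (n : ℕ) (u : ℝ) : St (n + 1) u = St n u +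
    (-1) ^ (n + 1) * u ^ (2 * (n + 1) + 1) / ((2 * (n + 1) + 1).factorial : ℝ) := by
  rw [St, Finset.sum_range_succ]; rfl

theorem St_deriv (n : ℕ) (u : ℝ) : HasDerivAt (St n) (Ct n u) u := by
  induction n with
  | zero =>
    have : St 0 = fun u => u := by ext u; exact St_zero u
    rw [this, Ct_zero]; exact hasDerivAt_id u
  | succ n ih =>
    have : St (n + 1) = fun u => St n u +
        (-1) ^ (n + 1) * u ^ (2 * (n + 1) + 1) / ((2 * (n + 1) + 1).factorial : ℝ) := by
      ext u; exact St_succ n u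
    rw [this, Ct_succ]
    refine ih.add ?_
    have h1 := ((hasDerivAt_pow (2 * (n + 1) + 1) u).const_mul ((-1 : ℝ) ^ (n + 1))).div_const
      (((2 * (n + 1) + 1).factorial : ℝ))
    refine h1.congr_deriv ?_
    have h2 : (((2 * (n + 1) + 1).factorial : ℕ) : ℝ) =
        ((2 * (n + 1) + 1 : ℕ) : ℝ) * ((2 * (n + 1)).factorial : ℝ) := by
      rw [Nat.factorial_succ]; push_cast; ring
    rw [h2]
    have h3 : ((2 * (n + 1) + 1 : ℕ) : ℝ) ≠ 0 := by positivity
    have h4 : ((2 * (n + 1)).factorial : ℝ) ≠ 0 := by positivity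
    rw [Nat.add_sub_cancel]
    field_simp

theorem Ct_deriv (n : ℕ) (u : ℝ) : HasDerivAt (Ct (n + 1)) (-St n u) u := by
  induction n with
  | zero =>
    have : Ct (0 + 1) = fun u => 1 + (-1) ^ (0 + 1) * u ^ (2 * (0 + 1)) /
        ((2 * (0 + 1)).factorial : ℝ) := by
      ext u; rw [Ct_succ, Ct_zero]
    rw [this, St_zero]
    have h1 := (((hasDerivAt_pow (2 * (0 + 1)) u).const_mul ((-1 : ℝ) ^ (0 + 1))).div_const
      (((2 * (0 + 1)).factorial : ℝ))).const_add 1
    refine h1.congr_deriv ?_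
    simp
    ring
  | succ n ih =>
    have : Ct (n + 1 + 1) = fun u => Ct (n + 1) u +
        (-1) ^ (n + 1 + 1) * u ^ (2 * (n + 1 + 1)) / ((2 * (n + 1 + 1)).factorial : ℝ) := by
      ext u; exact Ct_succ (n + 1) u
    rw [this, St_succ, neg_add]
    refine ih.add ?_
    have h1 := ((hasDerivAt_pow (2 * (n + 1 + 1)) u).const_mul ((-1 : ℝ) ^ (n + 1 + 1))).div_const
      (((2 * (n + 1 + 1)).factorial : ℝ))
    refine h1.congr_deriv ?_
    have h0 : 2 * (n + 1 + 1) = (2 * (n + 1) + 1) + 1 := by ring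
    have h2 : (((2 * (n + 1 + 1)).factorial : ℕ) : ℝ) =
        ((2 * (n + 1 + 1) : ℕ) : ℝ) * ((2 * (n + 1) + 1).factorial : ℝ) := by
      rw [h0, Nat.factorial_succ]; push_cast; ring
    rw [h2]
    have h3 : ((2 * (n + 1 + 1) : ℕ) : ℝ) ≠ 0 := by positivity
    have h4 : ((2 * (n + 1) + 1).factorial : ℝ) ≠ 0 := by positivity
    have h5 : 2 * (n + 1 + 1) - 1 = 2 * (n + 1) + 1 := by omega
    rw [h5]
    field_simp
    ring

theorem nonneg_of_deriv {f f' : ℝ → ℝ} (hf : ∀ u, HasDerivAt f (f' u) u) (h0 : f 0 = 0)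
    (h : ∀ u, 0 ≤ u → 0 ≤ f' u) : ∀ u, 0 ≤ u → 0 ≤ f u := by
  intro u hu
  have hm : MonotoneOn f (Ici 0) := by
    apply monotoneOn_of_deriv_nonneg (convex_Ici 0)
    · exact fun x _ => (hf x).continuousAt.continuousWithinAt
    · exact fun x _ => (hf x).differentiableAt.differentiableWithinAt
    · intro x hx
      rw [interior_Ici] at hx
      rw [(hf x).deriv]
      exact h x (le_of_lt hx)
  have := hm (mem_Ici.2 le_rfl) (mem_Ici.2 hu) hu
  rwa [h0] at this

theorem St_at_zero (n : ℕ) : St n 0 = 0 := by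
  rw [St]; apply Finset.sum_eq_zero; intro k _; simp

theorem Ct_at_zero (n : ℕ) : Ct n 0 = 1 := by
  induction n with
  | zero => exact Ct_zero 0
  | succ n ih => rw [Ct_succ, ih]; simp

theorem taylor (n : ℕ) : (∀ u, 0 ≤ u → 0 ≤ (-1) ^ n * (Ct n u - cos u)) ∧
    (∀ u, 0 ≤ u → 0 ≤ (-1) ^ n * (St n u - sin u)) := by
  have step : ∀ n, (∀ u, 0 ≤ u → 0 ≤ (-1 : ℝ) ^ n * (Ct n u - cos u)) →
      (∀ u, 0 ≤ u → 0 ≤ (-1) ^ n * (St n u - sin u)) := by
    intro n hn
    apply nonneg_of_deriv (f' := fun u => (-1) ^ n * (Ct n u - cos u))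
    · intro u
      exact ((St_deriv n u).sub (Real.hasDerivAt_sin u)).const_mul _
    · rw [St_at_zero]; simp
    · exact hn
  induction n with
  | zero =>
    have h0 : ∀ u, 0 ≤ u → 0 ≤ (-1 : ℝ) ^ 0 * (Ct 0 u - cos u) := by
      intro u _
      rw [Ct_zero]
      have := Real.cos_le_one u
      simp only [pow_zero, one_mul]
      linarith
    exact ⟨h0, step 0 h0⟩
  | succ n ih =>
    have h1 : ∀ u, 0 ≤ u → 0 ≤ (-1 : ℝ) ^ (n + 1) * (Ct (n + 1) u - cos u) := by
      apply nonneg_of_deriv (f' := fun u => (-1) ^ (n + 1) * (-St n u - -sin u))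
      · intro u
        exact ((Ct_deriv n u).sub (Real.hasDerivAt_cos u)).const_mul _
      · rw [Ct_at_zero]; simp
      · intro u hu
        have := ih.2 u hu
        have h2 : (-1 : ℝ) ^ (n + 1) * (-St n u - -sin u) = (-1) ^ n * (St n u - sin u) := by
          rw [pow_succ]; ring
        rw [h2]; exact this
    exact ⟨h1, step _ h1⟩

theorem Ct_neg (n : ℕ) (u : ℝ) : Ct n (-u) = Ct n u := by
  rw [Ct, Ct]
  apply Finset.sum_congr rfl
  intro k _
  rw [Even.neg_pow (even_two_mul k)]

theorem cos_le (m : ℕ) (u : ℝ) : cos u ≤ Ct (2 * m) u := by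
  have h : ∀ u, 0 ≤ u → cos u ≤ Ct (2 * m) u := by
    intro u hu
    have := (taylor (2 * m)).1 u hu
    rw [Even.neg_one_pow (even_two_mul m), one_mul] at this
    linarith
  rcases le_total 0 u with hu | hu
  · exact h u hu
  · have := h (-u) (by linarith)
    rwa [cos_neg, Ct_neg] at this

theorem Ct_cont (n : ℕ) : Continuous (Ct n) := by
  unfold Ct; fun_prop

/-- the average of the Taylor polynomials -/
noncomputable def qp (n : ℕ) (y : ℝ) : ℝ :=
  ∑ k ∈ Finset.range (n + 1), (-1) ^ k * (y / 4) ^ k / ((k.factorial : ℝ)) ^ 2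

theorem qp_cont (n : ℕ) : Continuous (qp n) := by
  unfold qp; fun_prop

theorem wallis (k : ℕ) : ∏ i ∈ Finset.range k, (2 * (i : ℝ) + 1) / (2 * i + 2) =
    ((2 * k).factorial : ℝ) / (4 ^ k * (k.factorial : ℝ) ^ 2) := by
  induction k with
  | zero => simp
  | succ k ih =>
    rw [Finset.prod_range_succ, ih]
    have h0 : 2 * (k + 1) = (2 * k + 1) + 1 := by ring
    rw [h0, Nat.factorial_succ, Nat.factorial_succ, Nat.factorial_succ]
    push_cast
    have h1 : ((2 * k).factorial : ℝ) ≠ 0 := by positivity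
    have h2 : (k.factorial : ℝ) ≠ 0 := by positivity
    field_simp
    ring

theorem int_cos_pow (k : ℕ) (a : ℝ) : ∫ θ in (-π)..π, cos (θ - a) ^ (2 * k) =
    2 * π * (((2 * k).factorial : ℝ) / (4 ^ k * (k.factorial : ℝ) ^ 2)) := by
  have hp : Function.Periodic (fun θ : ℝ => cos θ ^ (2 * k)) (2 * π) := by
    intro θ; simp only [cos_add_two_pi]
  have hq : Function.Periodic (fun θ : ℝ => sin θ ^ (2 * k)) π := by
    intro θ
    simp only [sin_add_pi]
    rw [Even.neg_pow (even_two_mul k)]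
  have e1 : ∫ θ in (-π)..π, cos (θ - a) ^ (2 * k) =
      ∫ θ in (-π - a)..(π - a), cos θ ^ (2 * k) :=
    intervalIntegral.integral_comp_sub_right (fun θ => cos θ ^ (2 * k)) a
  have e2 : ∫ θ in (-π - a)..(π - a), cos θ ^ (2 * k) =
      ∫ θ in (-(π / 2))..(-(π / 2) + 2 * π), cos θ ^ (2 * k) := by
    have := hp.intervalIntegral_add_eq (-π - a) (-(π / 2))
    rw [← this]
    congr 1
    ring
  have e3 : ∫ θ in (-(π / 2))..(-(π / 2) + 2 * π), cos θ ^ (2 * k) =
      ∫ θ in (0 : ℝ)..(2 * π), sin θ ^ (2 * k) := by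
    have h1 : ∀ θ : ℝ, cos θ = sin (θ + π / 2) := fun θ => (sin_add_pi_div_two θ).symm
    simp only [h1]
    rw [intervalIntegral.integral_comp_add_right (fun θ => sin θ ^ (2 * k))]
    congr 1 <;> ring
  have e4 : ∫ θ in (0 : ℝ)..(2 * π), sin θ ^ (2 * k) = 2 * ∫ θ in (0 : ℝ)..π, sin θ ^ (2 * k) := by
    have hc : Continuous fun θ : ℝ => sin θ ^ (2 * k) := by fun_prop
    rw [← intervalIntegral.integral_add_adjacent_intervals (hc.intervalIntegrable 0 π)
      (hc.intervalIntegrable π (2 * π))]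
    have := hq.intervalIntegral_add_eq 0 π
    rw [zero_add] at this
    have h2 : π + π = 2 * π := by ring
    rw [h2] at this
    rw [← this]; ring
  rw [e1, e2, e3, e4, integral_sin_pow_even, wallis]
  ring

theorem inner_polar (x : ℂ) (θ : ℝ) :
    inner ℝ (Complex.exp (θ * Complex.I)) x = ‖x‖ * cos (θ - x.arg) := by
  have h1 : x.re = ‖x‖ * cos x.arg := (Complex.norm_mul_cos_arg x).symm
  have h2 : x.im = ‖x‖ * sin x.arg := (Complex.norm_mul_sin_arg x).symm
  rw [Complex.inner, cos_sub]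
  simp only [Complex.mul_re, Complex.conj_re, Complex.conj_im, Complex.exp_ofReal_mul_I_re,
    Complex.exp_ofReal_mul_I_im]
  rw [h1, h2]; ring_nf

theorem avg (n : ℕ) (x : ℂ) :
    ∫ θ in (-π)..π, Ct n (inner ℝ (Complex.exp (θ * Complex.I)) x) = 2 * π * qp n (‖x‖ ^ 2) := by
  simp only [inner_polar]
  have : ∀ θ : ℝ, Ct n (‖x‖ * cos (θ - x.arg)) = ∑ k ∈ Finset.range (n + 1),
      ((-1) ^ k * ‖x‖ ^ (2 * k) / ((2 * k).factorial : ℝ)) * cos (θ - x.arg) ^ (2 * k) := by
    intro θ
    rw [Ct]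
    apply Finset.sum_congr rfl
    intro k _
    rw [mul_pow]; ring
  simp only [this]
  rw [intervalIntegral.integral_finsetSum]
  · rw [qp, Finset.mul_sum]
    apply Finset.sum_congr rfl
    intro k _
    rw [intervalIntegral.integral_const_mul, int_cos_pow, pow_mul]
    have h1 : ((2 * k).factorial : ℝ) ≠ 0 := by positivity
    have h2 : (k.factorial : ℝ) ≠ 0 := by positivity
    rw [div_pow]
    field_simp
  · intro k _
    apply Continuous.intervalIntegrable
    fun_prop


/-- the mean value inequality -/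
theorem int_q_nonneg (m : ℕ) (Ω : Set ℂ) (hΩ : IsOpen Ω) (hb : Bornology.IsBounded Ω)
    (hF : ∀ ξ : ℂ, ‖ξ‖ = 1 → ∫ x in Ω, cos (inner ℝ ξ x) = 0) :
    0 ≤ ∫ x in Ω, qp (2 * m) (‖x‖ ^ 2) := by
  have hK : IsCompact (closure Ω) := hb.isCompact_closure
  have hm : MeasurableSet Ω := hΩ.measurableSet
  have hint : ∀ g : ℂ → ℝ, Continuous g → IntegrableOn g Ω := by
    intro g hg
    exact (hg.continuousOn.integrableOn_compact hK).mono_set subset_closure
  have h1 : ∀ θ : ℝ, 0 ≤ ∫ x in Ω, Ct (2 * m) (inner ℝ (Complex.exp (θ * Complex.I)) x) := by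
    intro θ
    rw [← hF (Complex.exp (θ * Complex.I)) (Complex.norm_exp_ofReal_mul_I θ)]
    apply integral_mono
    · apply hint
      fun_prop
    · apply hint
      exact (Ct_cont _).comp (by fun_prop)
    · intro x
      exact cos_le m _
  have hpi : -π ≤ π := by linarith [pi_pos]
  have h2 : 0 ≤ ∫ θ in (-π)..π, ∫ x in Ω, Ct (2 * m) (inner ℝ (Complex.exp (θ * Complex.I)) x) :=
    intervalIntegral.integral_nonneg hpi (fun θ _ => h1 θ)
  have h3 : ∫ θ in (-π)..π, ∫ x in Ω, Ct (2 * m) (inner ℝ (Complex.exp (θ * Complex.I)) x) =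
      ∫ x in Ω, ∫ θ in (-π)..π, Ct (2 * m) (inner ℝ (Complex.exp (θ * Complex.I)) x) := by
    simp only [intervalIntegral.integral_of_le hpi]
    apply integral_integral_swap
    have hc : Continuous (Function.uncurry fun (θ : ℝ) (x : ℂ) =>
        Ct (2 * m) (inner ℝ (Complex.exp (θ * Complex.I)) x)) := by
      apply (Ct_cont _).comp
      fun_prop
    rw [Measure.prod_restrict]
    have hc2 : IsCompact (Icc (-π) π ×ˢ closure Ω) := isCompact_Icc.prod hK
    exact (hc.continuousOn.integrableOn_compact hc2).mono_set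
      (prod_mono Ioc_subset_Icc_self subset_closure)
  rw [h3] at h2
  simp only [avg] at h2
  rw [integral_const_mul] at h2
  have h4 : 0 < 2 * π := by positivity
  exact nonneg_of_mul_nonneg_right h2 h4

/-- primitive of `(1 + τ q(t²)) t` -/
noncomputable def Ph (n : ℕ) (τ t : ℝ) : ℝ :=
  t ^ 2 / 2 + τ * ∑ k ∈ Finset.range (n + 1),
    (-1) ^ k * t ^ (2 * k + 2) / (4 ^ k * ((k.factorial : ℝ)) ^ 2 * (2 * k + 2))

theorem Ph_deriv (n : ℕ) (τ t : ℝ) : HasDerivAt (Ph n τ) (t * (1 + τ * qp n (t ^ 2))) t := by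
  unfold Ph qp
  have h1 : HasDerivAt (fun t : ℝ => t ^ 2 / 2) t t := by
    have := (hasDerivAt_pow 2 t).div_const 2
    refine this.congr_deriv ?_
    simp
  have h2 : HasDerivAt (fun t : ℝ => ∑ k ∈ Finset.range (n + 1),
      (-1) ^ k * t ^ (2 * k + 2) / (4 ^ k * ((k.factorial : ℝ)) ^ 2 * (2 * k + 2)))
      (∑ k ∈ Finset.range (n + 1), (-1) ^ k * (((2 * k + 2 : ℕ) : ℝ) * t ^ (2 * k + 2 - 1)) /
        (4 ^ k * ((k.factorial : ℝ)) ^ 2 * (2 * k + 2))) t := by
    apply HasDerivAt.fun_sum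
    intro k _
    exact ((hasDerivAt_pow (2 * k + 2) t).const_mul _).div_const _
  refine (h1.add (h2.const_mul τ)).congr_deriv ?_
  rw [mul_add, mul_one, ← mul_assoc, mul_comm t τ, mul_assoc, Finset.mul_sum, Finset.mul_sum,
    Finset.mul_sum]
  congr 1
  apply Finset.sum_congr rfl
  intro k _
  have h3 : (k.factorial : ℝ) ≠ 0 := by positivity
  have h4 : (2 * (k : ℝ) + 2) ≠ 0 := by positivity
  have h5 : 2 * k + 2 - 1 = 2 * k + 1 := by omega
  rw [h5, div_pow, ← pow_mul]
  push_cast
  field_simp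
  ring

theorem Ph_zero (n : ℕ) (τ : ℝ) : Ph n τ 0 = 0 := by
  unfold Ph
  rw [Finset.sum_eq_zero]
  · simp
  · intro k _
    rw [zero_pow (by omega)]; simp

/-- the radial integral -/
theorem radial (n : ℕ) (τ r R C' : ℝ) (hr : 0 < r)
    (hΦ : ∀ t ∈ Icc r R, Ph n τ t ≤ C') (S : Set ℝ) (hS : IsOpen S) (hconv : S.OrdConnected)
    (hpos : S ⊆ Ioi 0) (hsub : Ioo 0 r ⊆ S) (hR : ∀ t ∈ S, t ≤ R) :
    ∫ t in S, t * (1 + τ * qp n (t ^ 2)) ≤ C' := by
  have hne : S.Nonempty := ⟨r / 2, hsub ⟨by linarith, by linarith⟩⟩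
  have hbdd : BddAbove S := ⟨R, hR⟩
  set ρ := sSup S with hρ
  have hS2 : S = Ioo 0 ρ := by
    ext t
    constructor
    · intro ht
      refine ⟨hpos ht, ?_⟩
      -- open: there is a bigger element
      obtain ⟨ε, hε, hball⟩ := Metric.isOpen_iff.1 hS t ht
      have : t + ε / 2 ∈ S := by
        apply hball
        rw [Metric.mem_ball, Real.dist_eq]
        rw [add_sub_cancel_left, abs_of_pos (by linarith)]
        linarith
      have := le_csSup hbdd this
      linarith
    · rintro ⟨h0, h1⟩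
      obtain ⟨s, hs, hts⟩ := exists_lt_of_lt_csSup hne h1
      rcases lt_or_ge t r with h | h
      · exact hsub ⟨h0, h⟩
      · exact hconv.out (hsub ⟨by linarith, by linarith⟩ : r / 2 ∈ S) hs ⟨by linarith, hts.le⟩
  have hρR : ρ ≤ R := csSup_le hne hR
  have hrρ : r ≤ ρ := by
    by_contra hlt
    push Not at hlt
    have h0 : max 0 ρ < r := max_lt hr hlt
    have : (max 0 ρ + r) / 2 ∈ S := hsub ⟨by
      have := le_max_left 0 ρ
      linarith, by linarith⟩
    have h1 := le_csSup hbdd this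
    have h2 := le_max_right 0 ρ
    have h3 : ρ < (max 0 ρ + r) / 2 := by linarith
    linarith
  have h0ρ : 0 ≤ ρ := by linarith
  rw [hS2, ← integral_Ioc_eq_integral_Ioo, ← intervalIntegral.integral_of_le h0ρ]
  rw [intervalIntegral.integral_eq_sub_of_hasDerivAt (f := Ph n τ) (fun t _ => Ph_deriv n τ t)]
  · rw [Ph_zero, sub_zero]
    exact hΦ ρ ⟨hrρ, hρR⟩
  · apply Continuous.intervalIntegrable
    have := qp_cont n
    fun_prop

/-- the reduction to the inequality for one real variable -/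
theorem red (m : ℕ) (τ r R C' : ℝ) (hτ : 0 ≤ τ) (hr : 0 < r)
    (hΦ : ∀ t ∈ Icc r R, Ph (2 * m) τ t ≤ C') (Ω : Set ℂ) (hΩ : IsOpen Ω) (hc : Convex ℝ Ω)
    (hb : Bornology.IsBounded Ω)
    (hF : ∀ ξ : ℂ, ‖ξ‖ = 1 → ∫ x in Ω, cos (inner ℝ ξ x) = 0)
    (hball : Metric.ball (0 : ℂ) r ⊆ Ω) (hR : ∀ x ∈ Ω, ‖x‖ ≤ R) :
    (volume Ω).toReal ≤ 2 * π * C' := by
  have hm : MeasurableSet Ω := hΩ.measurableSet
  have hK : IsCompact (closure Ω) := hb.isCompact_closure
  have hint : ∀ g : ℂ → ℝ, Continuous g → IntegrableOn g Ω := by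
    intro g hg
    exact (hg.continuousOn.integrableOn_compact hK).mono_set subset_closure
  have hq := int_q_nonneg m Ω hΩ hb hF
  have hqc := qp_cont (2 * m)
  set F : ℂ → ℝ := fun x => 1 + τ * qp (2 * m) (‖x‖ ^ 2) with hFdef
  have hFc : Continuous F := by fun_prop
  have h1 : (volume Ω).toReal ≤ ∫ x in Ω, F x := by
    rw [hFdef, integral_add (hint _ continuous_const) (hint _ (by fun_prop)),
      integral_const_mul]
    have : ∫ x in Ω, (1 : ℝ) = (volume Ω).toReal := by
      rw [setIntegral_const]; simp [Measure.real]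
    rw [this]
    have := mul_nonneg hτ hq
    linarith
  refine h1.trans ?_
  have hpi : -π ≤ π := by linarith [pi_pos]
  -- polar coordinates
  set f : ℂ → ℝ := Ω.indicator F with hf
  have hfint : Integrable f := (integrable_indicator_iff hm).2 (hint F hFc)
  have e1 : ∫ x in Ω, F x = ∫ x, f x := (integral_indicator hm).symm
  rw [e1, ← Complex.integral_comp_polarCoord_symm]
  have htarget : polarCoord.target = Ioi (0 : ℝ) ×ˢ Ioo (-π) π := rfl
  rw [htarget]
  have hS : ∀ θ : ℝ, ∫ t in Ioi (0 : ℝ), t • f (Complex.polarCoord.symm (t, θ)) ≤ C' := by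
    intro θ
    set e : ℂ := Real.cos θ + Real.sin θ * Complex.I with he
    have he1 : ‖e‖ = 1 := by
      have : e = Complex.exp (θ * Complex.I) := by
        rw [he, Complex.exp_mul_I, Complex.ofReal_cos, Complex.ofReal_sin]
      rw [this, Complex.norm_exp_ofReal_mul_I]
    set S : Set ℝ := Ioi 0 ∩ (fun t : ℝ => (t : ℂ) * e) ⁻¹' Ω with hSd
    have hcont : Continuous fun t : ℝ => (t : ℂ) * e := by fun_prop
    have hSo : IsOpen S := isOpen_Ioi.inter (hΩ.preimage hcont)
    have hnorm : ∀ t : ℝ, 0 < t → ‖(t : ℂ) * e‖ = t := by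
      intro t ht
      rw [norm_mul, he1, mul_one, Complex.norm_real, Real.norm_of_nonneg ht.le]
    have hSc : S.OrdConnected := by
      apply Convex.ordConnected
      apply (convex_Ioi 0).inter
      intro s hs t ht a b ha hb' hab
      simp only [mem_preimage, smul_eq_mul] at *
      have := hc hs ht ha hb' hab
      simp only [Complex.real_smul] at this
      push_cast
      convert this using 1
      ring
    have e2 : ∫ t in Ioi (0 : ℝ), t • f (Complex.polarCoord.symm (t, θ)) =
        ∫ t in S, t * (1 + τ * qp (2 * m) (t ^ 2)) := by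
      rw [hSd, ← setIntegral_indicator (hΩ.preimage hcont).measurableSet]
      apply setIntegral_congr_fun measurableSet_Ioi
      intro t ht
      simp only [Complex.polarCoord_symm_apply, smul_eq_mul]
      by_cases hmem : (t : ℂ) * e ∈ Ω
      · rw [indicator_of_mem (show t ∈ (fun t : ℝ => (t : ℂ) * e) ⁻¹' Ω from hmem), hf]
        rw [← he, indicator_of_mem hmem, hFdef]
        simp only []
        rw [hnorm t ht]
      · rw [indicator_of_notMem (show t ∉ (fun t : ℝ => (t : ℂ) * e) ⁻¹' Ω from hmem), hf]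
        rw [← he, indicator_of_notMem hmem, mul_zero]
    rw [e2]
    apply radial (2 * m) τ r R C' hr hΦ S hSo hSc inter_subset_left
    · intro t ht
      refine ⟨ht.1, hball ?_⟩
      rw [mem_ball_zero_iff, hnorm t ht.1]
      exact ht.2
    · intro t ht
      have := hR _ ht.2
      rwa [hnorm t ht.1] at this
  have hi0 : IntegrableOn (fun p : ℝ × ℝ => p.1 • f (Complex.polarCoord.symm p))
      (Ioi (0 : ℝ) ×ˢ Ioo (-π) π) := by
    rw [← htarget]
    have hf2 : Integrable (fun p : ℝ × ℝ => f (Complex.measurableEquivRealProd.symm p)) :=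
      (Complex.volume_preserving_equiv_real_prod.symm.integrable_comp_emb
        (MeasurableEquiv.measurableEmbedding _)).2 hfint
    have h5 := (integrableOn_image_iff_integrableOn_abs_det_fderiv_smul volume
      polarCoord.open_target.measurableSet
      (fun p _ => (hasFDerivAt_polarCoord_symm p).hasFDerivWithinAt)
      polarCoord.symm.injOn
      (fun p => f (Complex.measurableEquivRealProd.symm p))).1 (hf2.integrableOn)
    refine h5.congr_fun ?_ polarCoord.open_target.measurableSet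
    intro p hp
    have hp1 : 0 < p.1 := hp.1
    simp only [det_fderivPolarCoordSymm, abs_of_pos hp1]
    rfl
  have hv : (volume : Measure (ℝ × ℝ)).restrict (Ioi (0 : ℝ) ×ˢ Ioo (-π) π) =
      (volume.restrict (Ioi (0 : ℝ))).prod (volume.restrict (Ioo (-π) π)) := by
    rw [Measure.prod_restrict]; rfl
  have hi1 : Integrable (fun p : ℝ × ℝ => p.1 • f (Complex.polarCoord.symm p))
      ((volume.restrict (Ioi (0 : ℝ))).prod (volume.restrict (Ioo (-π) π))) := by
    rw [← hv]; exact hi0
  rw [hv, integral_prod_symm _ hi1]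
  have hlast : ∫ _θ in Ioo (-π) π, C' = 2 * π * C' := by
    rw [setIntegral_const]
    simp only [Measure.real, Real.volume_Ioo, smul_eq_mul]
    rw [ENNReal.toReal_ofReal (by linarith)]
    ring
  rw [← hlast]
  apply integral_mono hi1.integral_prod_right
  · exact integrable_const _
  · intro θ
    exact hS θ


theorem pos1 (u v : ℝ) (hu : 0 ≤ u) (hv : 0 ≤ v) : 0 ≤
      1542864033737492582659667983431892992 * u ^ 0 * v ^ 11 +
      125961731598237550010710859133831086080 * u ^ 1 * v ^ 10 +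
      1525429611355737321301217751613833216000 * u ^ 2 * v ^ 9 +
      7579664471241198092784496298290053120000 * u ^ 3 * v ^ 8 +
      20675842168485055646503210088831385600000 * u ^ 4 * v ^ 7 +
      34813460357625482199676267158026649600000 * u ^ 5 * v ^ 6 +
      37987293614191104906376204090788864000000 * u ^ 6 * v ^ 5 +
      27072533066396266278911621660630400000000 * u ^ 7 * v ^ 4 +
      12217985054102642577789738579813000000000 * u ^ 8 * v ^ 3 +
      3183907642353032382331783549880625000000 * u ^ 9 * v ^ 2 +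
      368486619965800545607505493805546875000 * u ^ 10 * v ^ 1 +
      1052649621370538587597446602490234375 * u ^ 11 * v ^ 0 := by
  positivity

theorem pol1 (y : ℝ) (h1 : (58 / 5) ≤ y) (h2 : y ≤ (111 / 4)) :
    (4331 / 2000) * y ^ 1 + (-3331 / 16000) * y ^ 2 + (3331 / 384000) * y ^ 3 + (-3331 / 18432000) * y ^ 4 + (3331 / 1474560000) * y ^ 5 + (-3331 / 176947200000) * y ^ 6 + (3331 / 29727129600000) * y ^ 7 + (-3331 / 6658877030400000) * y ^ 8 + (3331 / 1917756584755200000) * y ^ 9 + (-3331 / 690392370511872000000) * y ^ 10 + (3331 / 303772643025223680000000) * y ^ 11 ≤ (78303 / 10000) := by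
  have h := pos1 (y - (58 / 5)) ((111 / 4) - y) (by linarith) (by linarith)
  have key : ((78303 / 10000) - ((4331 / 2000) * y ^ 1 + (-3331 / 16000) * y ^ 2 + (3331 / 384000) * y ^ 3 + (-3331 / 18432000) * y ^ 4 + (3331 / 1474560000) * y ^ 5 + (-3331 / 176947200000) * y ^ 6 + (3331 / 29727129600000) * y ^ 7 + (-3331 / 6658877030400000) * y ^ 8 + (3331 / 1917756584755200000) * y ^ 9 + (-3331 / 690392370511872000000) * y ^ 10 + (3331 / 303772643025223680000000) * y ^ 11)) * 1212764303621788073549769566903711862997647360000000 =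
      1542864033737492582659667983431892992 * (y - (58 / 5)) ^ 0 * ((111 / 4) - y) ^ 11 +
      125961731598237550010710859133831086080 * (y - (58 / 5)) ^ 1 * ((111 / 4) - y) ^ 10 +
      1525429611355737321301217751613833216000 * (y - (58 / 5)) ^ 2 * ((111 / 4) - y) ^ 9 +
      7579664471241198092784496298290053120000 * (y - (58 / 5)) ^ 3 * ((111 / 4) - y) ^ 8 +
      20675842168485055646503210088831385600000 * (y - (58 / 5)) ^ 4 * ((111 / 4) - y) ^ 7 +
      34813460357625482199676267158026649600000 * (y - (58 / 5)) ^ 5 * ((111 / 4) - y) ^ 6 +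
      37987293614191104906376204090788864000000 * (y - (58 / 5)) ^ 6 * ((111 / 4) - y) ^ 5 +
      27072533066396266278911621660630400000000 * (y - (58 / 5)) ^ 7 * ((111 / 4) - y) ^ 4 +
      12217985054102642577789738579813000000000 * (y - (58 / 5)) ^ 8 * ((111 / 4) - y) ^ 3 +
      3183907642353032382331783549880625000000 * (y - (58 / 5)) ^ 9 * ((111 / 4) - y) ^ 2 +
      368486619965800545607505493805546875000 * (y - (58 / 5)) ^ 10 * ((111 / 4) - y) ^ 1 +
      1052649621370538587597446602490234375 * (y - (58 / 5)) ^ 11 * ((111 / 4) - y) ^ 0 := by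
    ring
  rw [← key] at h
  have hD : (0 : ℝ) < 1212764303621788073549769566903711862997647360000000 := by norm_num
  have := nonneg_of_mul_nonneg_left h hD
  linarith

theorem Ph1 (t : ℝ) (h1 : (341 / 100) ≤ t) (h2 : t ≤ (1053 / 200)) : Ph 10 (3331 / 1000) t ≤ (78303 / 10000) := by
  have h3 : (58 / 5) ≤ t ^ 2 := by nlinarith
  have h4 : t ^ 2 ≤ (111 / 4) := by nlinarith
  have h5 := pol1 (t ^ 2) h3 h4
  refine le_trans (le_of_eq ?_) h5
  unfold Ph
  simp only [Finset.sum_range_succ, Finset.sum_range_zero, Nat.factorial, Nat.cast_mul, Nat.cast_add,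
    Nat.cast_one, Nat.cast_zero, Nat.cast_ofNat, Nat.cast_succ]
  ring

theorem area1q : Area (341 / 100) (1053 / 200) (246 / 5) := by
  intro Ω hΩ hc hb hF hball hR
  have h := red 5 (3331 / 1000) (341 / 100) (1053 / 200) (78303 / 10000) (by norm_num) (by norm_num)
    (fun t ht => Ph1 t ht.1 ht.2) Ω hΩ hc hb hF hball hR
  have hpi : π < 3.1416 := pi_lt_d4
  have : 2 * π * (78303 / 10000) < (246 / 5) := by nlinarith
  linarith

theorem pos2 (u v : ℝ) (hu : 0 ≤ u) (hv : 0 ≤ v) : 0 ≤
      57780041686026942553872869376 * u ^ 0 * v ^ 11 +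
      8665317225706396049921353317376 * u ^ 1 * v ^ 10 +
      102477883000918014863032461166080 * u ^ 2 * v ^ 9 +
      495005757410486140459723050819840 * u ^ 3 * v ^ 8 +
      1317693605770487185690700204570880 * u ^ 4 * v ^ 7 +
      2171423415622363440840305454794112 * u ^ 5 * v ^ 6 +
      2323355884879165732049890409088192 * u ^ 6 * v ^ 5 +
      1625706039514035955884145170792480 * u ^ 7 * v ^ 4 +
      720956306694813561091917588912840 * u ^ 8 * v ^ 3 +
      184686237227647483170795977311980 * u ^ 9 * v ^ 2 +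
      20996296603006765843539790526286 * u ^ 10 * v ^ 1 +
      50986878501365324507333769741 * u ^ 11 * v ^ 0 := by
  positivity

theorem pol2 (y : ℝ) (h1 : (58 / 5) ≤ y) (h2 : y ≤ (153 / 5)) :
    (4829 / 2000) * y ^ 1 + (-3829 / 16000) * y ^ 2 + (3829 / 384000) * y ^ 3 + (-3829 / 18432000) * y ^ 4 + (3829 / 1474560000) * y ^ 5 + (-3829 / 176947200000) * y ^ 6 + (547 / 4246732800000) * y ^ 7 + (-547 / 951268147200000) * y ^ 8 + (547 / 273965226393600000) * y ^ 9 + (-547 / 98627481501696000000) * y ^ 10 + (547 / 43396091860746240000000) * y ^ 11 ≤ (40663 / 5000) := by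
  have h := pos2 (y - (58 / 5)) ((153 / 5) - y) (by linarith) (by linarith)
  have key : ((40663 / 5000) - ((4829 / 2000) * y ^ 1 + (-3829 / 16000) * y ^ 2 + (3829 / 384000) * y ^ 3 + (-3829 / 18432000) * y ^ 4 + (3829 / 1474560000) * y ^ 5 + (-3829 / 176947200000) * y ^ 6 + (547 / 4246732800000) * y ^ 7 + (-547 / 951268147200000) * y ^ 8 + (547 / 273965226393600000) * y ^ 9 + (-547 / 98627481501696000000) * y ^ 10 + (547 / 43396091860746240000000) * y ^ 11)) * 246837010548301943613161472000000000000000000 =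
      57780041686026942553872869376 * (y - (58 / 5)) ^ 0 * ((153 / 5) - y) ^ 11 +
      8665317225706396049921353317376 * (y - (58 / 5)) ^ 1 * ((153 / 5) - y) ^ 10 +
      102477883000918014863032461166080 * (y - (58 / 5)) ^ 2 * ((153 / 5) - y) ^ 9 +
      495005757410486140459723050819840 * (y - (58 / 5)) ^ 3 * ((153 / 5) - y) ^ 8 +
      1317693605770487185690700204570880 * (y - (58 / 5)) ^ 4 * ((153 / 5) - y) ^ 7 +
      2171423415622363440840305454794112 * (y - (58 / 5)) ^ 5 * ((153 / 5) - y) ^ 6 +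
      2323355884879165732049890409088192 * (y - (58 / 5)) ^ 6 * ((153 / 5) - y) ^ 5 +
      1625706039514035955884145170792480 * (y - (58 / 5)) ^ 7 * ((153 / 5) - y) ^ 4 +
      720956306694813561091917588912840 * (y - (58 / 5)) ^ 8 * ((153 / 5) - y) ^ 3 +
      184686237227647483170795977311980 * (y - (58 / 5)) ^ 9 * ((153 / 5) - y) ^ 2 +
      20996296603006765843539790526286 * (y - (58 / 5)) ^ 10 * ((153 / 5) - y) ^ 1 +
      50986878501365324507333769741 * (y - (58 / 5)) ^ 11 * ((153 / 5) - y) ^ 0 := by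
    ring
  rw [← key] at h
  have hD : (0 : ℝ) < 246837010548301943613161472000000000000000000 := by norm_num
  have := nonneg_of_mul_nonneg_left h hD
  linarith

theorem Ph2 (t : ℝ) (h1 : (341 / 100) ≤ t) (h2 : t ≤ (553 / 100)) : Ph 10 (3829 / 1000) t ≤ (40663 / 5000) := by
  have h3 : (58 / 5) ≤ t ^ 2 := by nlinarith
  have h4 : t ^ 2 ≤ (153 / 5) := by nlinarith
  have h5 := pol2 (t ^ 2) h3 h4
  refine le_trans (le_of_eq ?_) h5
  unfold Ph
  simp only [Finset.sum_range_succ, Finset.sum_range_zero, Nat.factorial, Nat.cast_mul, Nat.cast_add,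
    Nat.cast_one, Nat.cast_zero, Nat.cast_ofNat, Nat.cast_succ]
  ring

theorem area2q : Area (341 / 100) (553 / 100) (511 / 10) := by
  intro Ω hΩ hc hb hF hball hR
  have h := red 5 (3829 / 1000) (341 / 100) (553 / 100) (40663 / 5000) (by norm_num) (by norm_num)
    (fun t ht => Ph2 t ht.1 ht.2) Ω hΩ hc hb hF hball hR
  have hpi : π < 3.1416 := pi_lt_d4
  have : 2 * π * (40663 / 5000) < (511 / 10) := by nlinarith
  linarith

theorem pos3 (u v : ℝ) (hu : 0 ≤ u) (hv : 0 ≤ v) : 0 ≤
      62865925745572775179455137221 * u ^ 0 * v ^ 11 +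
      100748045789735725223398828814498 * u ^ 1 * v ^ 10 +
      1018789824343211589932043849169420 * u ^ 2 * v ^ 9 +
      4335773833267084453493678909449080 * u ^ 3 * v ^ 8 +
      10381012608343124961318647562773280 * u ^ 4 * v ^ 7 +
      15576174114539171041529039690838336 * u ^ 5 * v ^ 6 +
      15290362493638826242199911732783488 * u ^ 6 * v ^ 5 +
      9864083646110607175241429748207360 * u ^ 7 * v ^ 4 +
      4046195096508467190289596561373440 * u ^ 8 * v ^ 3 +
      960807643317573180507532754659840 * u ^ 9 * v ^ 2 +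
      101388741146374447477232958086144 * u ^ 10 * v ^ 1 +
      223412546547951294574484396032 * u ^ 11 * v ^ 0 := by
  positivity

theorem pol3 (y : ℝ) (h1 : (71 / 5) ≤ y) (h2 : y ≤ (218 / 5)) :
    (4297 / 500) * y ^ 1 + (-4047 / 4000) * y ^ 2 + (1349 / 32000) * y ^ 3 + (-1349 / 1536000) * y ^ 4 + (1349 / 122880000) * y ^ 5 + (-1349 / 14745600000) * y ^ 6 + (1349 / 2477260800000) * y ^ 7 + (-1349 / 554906419200000) * y ^ 8 + (1349 / 159813048729600000) * y ^ 9 + (-1349 / 57532697542656000000) * y ^ 10 + (1349 / 25314386918768640000000) * y ^ 11 ≤ (8721 / 1000) := by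
  have h := pos3 (y - (71 / 5)) ((218 / 5) - y) (by linarith) (by linarith)
  have key : ((8721 / 1000) - ((4297 / 500) * y ^ 1 + (-4047 / 4000) * y ^ 2 + (1349 / 32000) * y ^ 3 + (-1349 / 1536000) * y ^ 4 + (1349 / 122880000) * y ^ 5 + (-1349 / 14745600000) * y ^ 6 + (1349 / 2477260800000) * y ^ 7 + (-1349 / 554906419200000) * y ^ 8 + (1349 / 159813048729600000) * y ^ 9 + (-1349 / 57532697542656000000) * y ^ 10 + (1349 / 25314386918768640000000) * y ^ 11)) * 17533075221087285347719256051453704273920000000 =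
      62865925745572775179455137221 * (y - (71 / 5)) ^ 0 * ((218 / 5) - y) ^ 11 +
      100748045789735725223398828814498 * (y - (71 / 5)) ^ 1 * ((218 / 5) - y) ^ 10 +
      1018789824343211589932043849169420 * (y - (71 / 5)) ^ 2 * ((218 / 5) - y) ^ 9 +
      4335773833267084453493678909449080 * (y - (71 / 5)) ^ 3 * ((218 / 5) - y) ^ 8 +
      10381012608343124961318647562773280 * (y - (71 / 5)) ^ 4 * ((218 / 5) - y) ^ 7 +
      15576174114539171041529039690838336 * (y - (71 / 5)) ^ 5 * ((218 / 5) - y) ^ 6 +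
      15290362493638826242199911732783488 * (y - (71 / 5)) ^ 6 * ((218 / 5) - y) ^ 5 +
      9864083646110607175241429748207360 * (y - (71 / 5)) ^ 7 * ((218 / 5) - y) ^ 4 +
      4046195096508467190289596561373440 * (y - (71 / 5)) ^ 8 * ((218 / 5) - y) ^ 3 +
      960807643317573180507532754659840 * (y - (71 / 5)) ^ 9 * ((218 / 5) - y) ^ 2 +
      101388741146374447477232958086144 * (y - (71 / 5)) ^ 10 * ((218 / 5) - y) ^ 1 +
      223412546547951294574484396032 * (y - (71 / 5)) ^ 11 * ((218 / 5) - y) ^ 0 := by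
    ring
  rw [← key] at h
  have hD : (0 : ℝ) < 17533075221087285347719256051453704273920000000 := by norm_num
  have := nonneg_of_mul_nonneg_left h hD
  linarith

theorem Ph3 (t : ℝ) (h1 : (189 / 50) ≤ t) (h2 : t ≤ (33 / 5)) : Ph 10 (4047 / 250) t ≤ (8721 / 1000) := by
  have h3 : (71 / 5) ≤ t ^ 2 := by nlinarith
  have h4 : t ^ 2 ≤ (218 / 5) := by nlinarith
  have h5 := pol3 (t ^ 2) h3 h4
  refine le_trans (le_of_eq ?_) h5
  unfold Ph
  simp only [Finset.sum_range_succ, Finset.sum_range_zero, Nat.factorial, Nat.cast_mul, Nat.cast_add,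
    Nat.cast_one, Nat.cast_zero, Nat.cast_ofNat, Nat.cast_succ]
  ring

theorem area3q : Area (189 / 50) (33 / 5) (274 / 5) := by
  intro Ω hΩ hc hb hF hball hR
  have h := red 5 (4047 / 250) (189 / 50) (33 / 5) (8721 / 1000) (by norm_num) (by norm_num)
    (fun t ht => Ph3 t ht.1 ht.2) Ω hΩ hc hb hF hball hR
  have hpi : π < 3.1416 := pi_lt_d4
  have : 2 * π * (8721 / 1000) < (274 / 5) := by nlinarith
  linarith

theorem area1 : Area 3.41 5.265 49.2 := by
  have h := area1q
  have e1 : ((341 / 100) : ℝ) = 3.41 := by norm_num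
  have e2 : ((1053 / 200) : ℝ) = 5.265 := by norm_num
  have e3 : ((246 / 5) : ℝ) = 49.2 := by norm_num
  rw [e1, e2, e3] at h
  exact h

theorem area2 : Area 3.41 5.53 51.1 := by
  have h := area2q
  have e1 : ((341 / 100) : ℝ) = 3.41 := by norm_num
  have e2 : ((553 / 100) : ℝ) = 5.53 := by norm_num
  have e3 : ((511 / 10) : ℝ) = 51.1 := by norm_num
  rw [e1, e2, e3] at h
  exact h

theorem area3 : Area 3.78 6.6 54.8 := by
  have h := area3q
  have e1 : ((189 / 50) : ℝ) = 3.78 := by norm_num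
  have e2 : ((33 / 5) : ℝ) = 6.6 := by norm_num
  have e3 : ((274 / 5) : ℝ) = 54.8 := by norm_num
  rw [e1, e2, e3] at h
  exact h

end Pool.Agent.TH298.GB.AREAf
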