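import Mathlib

/-!
A verified checker for the positivity of `P(t) + S(t) sin t + C(t) cos t` on an interval.
-/

set_option autoImplicit false

namespace Pool.Agent.TH298.GB

open Real Finset

/-- nested Taylor sums -/
def hz (k2 D2 : ℤ) : ℕ → ℕ → ℤ × ℤ
  | 0, _ => (0, 1)
  | m + 1, q =>
    let p := hz k2 D2 m (q + 2)
    let d := p.2 * (((q : ℤ) + 1) * ((q : ℤ) + 2) * D2)
    (d - k2 * p.1, d)

/-- `10 ^ 10 * cos (k / D)` -/
def cz (k D : ℤ) : ℤ :=
  let p := hz (k * k) (D * D) 26 0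
  (p.1 * 10000000000) / p.2

/-- `10 ^ 10 * sin (k / D)` -/
def sz (k D : ℤ) : ℤ :=
  let p := hz (k * k) (D * D) 26 1
  (k * p.1 * 10000000000) / (D * p.2)

/-- the value of the nested sum -/
noncomputable def V (u : ℝ) : ℕ → ℕ → ℝ
  | 0, _ => 0
  | m + 1, q => 1 - u ^ 2 / ((q + 1) * (q + 2)) * V u m (q + 2)

theorem hz_pos (k : ℤ) {D : ℤ} (hD : 0 < D) (m : ℕ) : ∀ q, 0 < (hz (k * k) (D * D) m q).2 := by
  induction m with
  | zero => intro q; simp [hz]
  | succ m ih =>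
    intro q
    simp only [hz]
    have := ih (q + 2)
    positivity

theorem hz_V (k : ℤ) {D : ℤ} (hD : 0 < D) (m : ℕ) : ∀ q,
    (((hz (k * k) (D * D) m q).1 : ℤ) : ℝ) / ((hz (k * k) (D * D) m q).2 : ℤ) = V (k / D) m q := by
  induction m with
  | zero => intro q; simp [hz, V]
  | succ m ih =>
    intro q
    simp only [hz, V]
    have h1 := ih (q + 2)
    have h2 := hz_pos k hD m (q + 2)
    rw [← h1]
    generalize (hz (k * k) (D * D) m (q + 2)).1 = x at *
    generalize (hz (k * k) (D * D) m (q + 2)).2 = y at *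
    have hy : (0 : ℝ) < y := by exact_mod_cast h2
    have hDr : (0 : ℝ) < D := by exact_mod_cast hD
    have hq1 : (0 : ℝ) < (q : ℝ) + 1 := by positivity
    have hq2 : (0 : ℝ) < (q : ℝ) + 2 := by positivity
    push_cast
    field_simp

/-- the nested sum is a Taylor sum -/
theorem V_sum (u : ℝ) (m : ℕ) : ∀ q : ℕ,
    V u m q = ∑ i ∈ range m, (-1) ^ i * u ^ (2 * i) * (q.factorial / (q + 2 * i).factorial) := by
  induction m with
  | zero => intro q; simp [V]
  | succ m ih =>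
    intro q
    rw [V, ih (q + 2), sum_range_succ']
    have h0 : ((-1 : ℝ)) ^ 0 * u ^ (2 * 0) * ((q.factorial : ℝ) / ((q + 2 * 0).factorial : ℝ)) = 1 := by
      have : (q.factorial : ℝ) ≠ 0 := by positivity
      rw [mul_zero, add_zero, div_self this]
      simp
    have h4 : ∑ i ∈ range m, (-1 : ℝ) ^ (i + 1) * u ^ (2 * (i + 1)) *
        ((q.factorial : ℝ) / ((q + 2 * (i + 1)).factorial : ℝ)) =
        -(u ^ 2 / (((q : ℝ) + 1) * (q + 2)) * ∑ i ∈ range m, (-1 : ℝ) ^ i * u ^ (2 * i) *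
          (((q + 2).factorial : ℝ) / ((q + 2 + 2 * i).factorial : ℝ))) := by
      rw [mul_sum, ← sum_neg_distrib]
      refine sum_congr rfl fun i _ => ?_
      have e1 : q + 2 + 2 * i = q + 2 * (i + 1) := by ring
      have e2 : ((q + 2).factorial : ℝ) = (q + 2) * (q + 1) * q.factorial := by
        rw [Nat.factorial_succ, Nat.factorial_succ]
        push_cast
        ring
      rw [e1, e2]
      have h3 : ((q + 2 * (i + 1)).factorial : ℝ) ≠ 0 := by positivity
      have hq1 : (q : ℝ) + 1 ≠ 0 := by positivity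
      have hq2 : (q : ℝ) + 2 ≠ 0 := by positivity
      field_simp
      ring
    rw [h0, h4]
    ring

theorem exp_split (u : ℝ) (n : ℕ) :
    ∑ m ∈ range (2 * n), ((u : ℂ) * Complex.I) ^ m / (m.factorial : ℂ) =
      ((∑ i ∈ range n, (-1) ^ i * u ^ (2 * i) / ((2 * i).factorial : ℝ) : ℝ) : ℂ) +
      ((∑ i ∈ range n, (-1) ^ i * u ^ (2 * i + 1) / ((2 * i + 1).factorial : ℝ) : ℝ) : ℂ) *
        Complex.I := by
  induction n with
  | zero => simp
  | succ n ih =>
    have : 2 * (n + 1) = 2 * n + 1 + 1 := by ring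
    rw [this, sum_range_succ, sum_range_succ, ih, sum_range_succ, sum_range_succ]
    have h1 : ((u : ℂ) * Complex.I) ^ (2 * n) = (-1) ^ n * (u : ℂ) ^ (2 * n) := by
      rw [mul_pow, pow_mul Complex.I, Complex.I_sq]
      ring
    have h2 : ((u : ℂ) * Complex.I) ^ (2 * n + 1) = (-1) ^ n * (u : ℂ) ^ (2 * n + 1) * Complex.I := by
      rw [pow_succ, h1]
      ring
    rw [h1, h2]
    push_cast
    ring

theorem num_bd {u : ℝ} (hu : |u| ≤ 13) : |u| ^ 52 / ((52 : ℕ).factorial : ℝ) * 2 ≤ 1 / 10 ^ 9 := by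
  have h1 : |u| ^ 52 ≤ 13 ^ 52 := pow_le_pow_left₀ (abs_nonneg _) hu 52
  have h2 : (0 : ℝ) < ((52 : ℕ).factorial : ℝ) := by positivity
  have h3 : |u| ^ 52 / ((52 : ℕ).factorial : ℝ) * 2 ≤ 13 ^ 52 / ((52 : ℕ).factorial : ℝ) * 2 := by
    gcongr
  refine h3.trans ?_
  norm_num [Nat.factorial]

theorem taylor_bd {u : ℝ} (hu : |u| ≤ 13) :
    |cos u - V u 26 0| ≤ 1 / 10 ^ 9 ∧ |sin u - u * V u 26 1| ≤ 1 / 10 ^ 9 := by
  have hn : ‖(u : ℂ) * Complex.I‖ = |u| := by
    rw [norm_mul, Complex.norm_I, mul_one, Complex.norm_real, Real.norm_eq_abs]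
  have h1 := Complex.exp_bound' (x := (u : ℂ) * Complex.I) (n := 2 * 26) (by
    rw [hn, div_le_div_iff₀ (by positivity) (by norm_num)]
    push_cast
    linarith)
  rw [hn, exp_split, Complex.exp_mul_I] at h1
  have h2 := h1.trans (num_bd hu)
  have e0 : (∑ i ∈ range 26, (-1) ^ i * u ^ (2 * i) / ((2 * i).factorial : ℝ)) = V u 26 0 := by
    rw [V_sum]
    refine sum_congr rfl fun i _ => ?_
    simp
    ring
  have e1 : (∑ i ∈ range 26, (-1) ^ i * u ^ (2 * i + 1) / ((2 * i + 1).factorial : ℝ)) =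
      u * V u 26 1 := by
    rw [V_sum, mul_sum]
    refine sum_congr rfl fun i _ => ?_
    rw [show 1 + 2 * i = 2 * i + 1 by ring]
    simp
    ring
  rw [e0, e1] at h2
  have h3 : Complex.cos (u : ℂ) + Complex.sin (u : ℂ) * Complex.I -
      (((V u 26 0 : ℝ) : ℂ) + ((u * V u 26 1 : ℝ) : ℂ) * Complex.I) =
      ((cos u - V u 26 0 : ℝ) : ℂ) + ((sin u - u * V u 26 1 : ℝ) : ℂ) * Complex.I := by
    push_cast
    ring
  rw [h3] at h2
  generalize cos u - V u 26 0 = A at h2 ⊢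
  generalize sin u - u * V u 26 1 = B at h2 ⊢
  constructor
  · refine le_trans ?_ ((Complex.abs_re_le_norm _).trans h2)
    simp
  · refine le_trans ?_ ((Complex.abs_im_le_norm _).trans h2)
    simp

theorem div_floor (a b : ℤ) (hb : 0 < b) : |((a / b : ℤ) : ℝ) - a / b| ≤ 1 := by
  have hbr : (0 : ℝ) < b := by exact_mod_cast hb
  have h1 : (a / b) * b ≤ a := Int.ediv_mul_le a hb.ne'
  have h2 : a < (a / b + 1) * b := Int.lt_ediv_add_one_mul_self a hb
  have h1' : ((a / b : ℤ) : ℝ) * b ≤ a := by exact_mod_cast h1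
  have h2' : (a : ℝ) < (((a / b : ℤ) : ℝ) + 1) * b := by exact_mod_cast h2
  rw [abs_le]
  constructor
  · have : (a : ℝ) / b < ((a / b : ℤ) : ℝ) + 1 := by
      rw [div_lt_iff₀ hbr]; exact h2'
    linarith
  · have : ((a / b : ℤ) : ℝ) ≤ (a : ℝ) / b := by
      rw [le_div_iff₀ hbr]; exact h1'
    linarith

theorem cz_bd {k D : ℤ} (hD : 0 < D) (hk : |(k : ℝ) / D| ≤ 13) :
    |(cz k D : ℝ) - 10 ^ 10 * cos ((k : ℝ) / D)| ≤ 20 := by
  have h1 := div_floor ((hz (k * k) (D * D) 26 0).1 * 10000000000) _ (hz_pos k hD 26 0)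
  have h2 := hz_V k hD 26 0
  have h3 := (taylor_bd hk).1
  have hcz : (cz k D : ℝ) = (((hz (k * k) (D * D) 26 0).1 * 10000000000 /
      (hz (k * k) (D * D) 26 0).2 : ℤ) : ℝ) := rfl
  rw [hcz]
  push_cast at h1
  rw [mul_div_right_comm, h2] at h1
  rw [abs_le] at h1 h3 ⊢
  constructor <;> linarith [h1.1, h1.2, h3.1, h3.2]

theorem sz_bd {k D : ℤ} (hD : 0 < D) (hk : |(k : ℝ) / D| ≤ 13) :
    |(sz k D : ℝ) - 10 ^ 10 * sin ((k : ℝ) / D)| ≤ 20 := by
  have hDr : (0 : ℝ) < D := by exact_mod_cast hD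
  have h0 := hz_pos k hD 26 1
  have h1 := div_floor (k * (hz (k * k) (D * D) 26 1).1 * 10000000000) _ (mul_pos hD h0)
  have h2 := hz_V k hD 26 1
  have h3 := (taylor_bd hk).2
  have hsz : (sz k D : ℝ) = ((k * (hz (k * k) (D * D) 26 1).1 * 10000000000 /
      (D * (hz (k * k) (D * D) 26 1).2) : ℤ) : ℝ) := rfl
  rw [hsz]
  have h4 : ((k * (hz (k * k) (D * D) 26 1).1 * 10000000000 : ℤ) : ℝ) /
      ((D * (hz (k * k) (D * D) 26 1).2 : ℤ) : ℝ) =
      10 ^ 10 * ((k : ℝ) / D * V (k / D) 26 1) := by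
    rw [← h2]
    have hy : (0 : ℝ) < (((hz (k * k) (D * D) 26 1).2 : ℤ) : ℝ) := by exact_mod_cast h0
    push_cast
    field_simp
    norm_num
  rw [h4] at h1
  rw [abs_le] at h1 h3 ⊢
  constructor <;> linarith [h1.1, h1.2, h3.1, h3.2]

/-- the value of a polynomial -/
noncomputable def ev : List ℤ → ℝ → ℝ
  | [], _ => 0
  | a :: l, t => a + t * ev l t

/-- the value of a polynomial at `k / E`, times `E ^ length` -/
def hv (k E : ℤ) : List ℤ → ℤ
  | [] => 0
  | a :: l => a * E ^ (l.length + 1) + k * hv k E l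

/-- the value of the polynomial with the absolute values of the coefficients -/
def ha (k E : ℤ) : List ℤ → ℤ
  | [] => 0
  | a :: l => |a| * E ^ (l.length + 1) + k * ha k E l

theorem hv_ev (k : ℤ) {E : ℤ} (hE : 0 < E) (l : List ℤ) :
    (hv k E l : ℝ) = (E : ℝ) ^ l.length * ev l (k / E) := by
  have hEr : (0 : ℝ) < E := by exact_mod_cast hE
  induction l with
  | nil => simp [hv, ev]
  | cons a l ih =>
    simp only [hv, ev, List.length_cons]
    push_cast
    rw [ih]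
    field_simp
    ring

theorem ha_ev {k : ℤ} {E : ℤ} (hE : 0 < E) (hk : 0 ≤ k) (l : List ℤ) {t : ℝ}
    (ht : |t| ≤ k / E) : (E : ℝ) ^ l.length * |ev l t| ≤ ha k E l := by
  have hEr : (0 : ℝ) < E := by exact_mod_cast hE
  have hkr : (0 : ℝ) ≤ k := by exact_mod_cast hk
  induction l with
  | nil => simp [ha, ev]
  | cons a l ih =>
    simp only [ha, ev, List.length_cons]
    push_cast
    have h1 : |(a : ℝ) + t * ev l t| ≤ |(a : ℝ)| + (k / E) * |ev l t| := by
      refine (abs_add_le _ _).trans ?_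
      rw [abs_mul]
      gcongr
    have h2 : (E : ℝ) ^ (l.length + 1) * |(a : ℝ) + t * ev l t| ≤
        (E : ℝ) ^ (l.length + 1) * (|(a : ℝ)| + (k / E) * |ev l t|) := by gcongr
    refine h2.trans ?_
    have h3 : (E : ℝ) ^ (l.length + 1) * (|(a : ℝ)| + (k / E) * |ev l t|) =
        |(a : ℝ)| * E ^ (l.length + 1) + k * ((E : ℝ) ^ l.length * |ev l t|) := by
      field_simp
      ring
    rw [h3]
    gcongr

/-- second order lower bound -/
theorem taylor2 {F F1 F2 : ℝ → ℝ} (h1 : ∀ t, HasDerivAt F (F1 t) t)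
    (h2 : ∀ t, HasDerivAt F1 (F2 t) t) {c r M : ℝ}
    (hM : ∀ t, |t - c| ≤ r → |F2 t| ≤ M) {t : ℝ} (ht : |t - c| ≤ r) :
    F c - |F1 c| * r - M * r ^ 2 / 2 ≤ F t := by
  have hr : 0 ≤ r := (abs_nonneg _).trans ht
  have hM0 : 0 ≤ M := (abs_nonneg _).trans (hM c (by simpa using hr))
  have hLip : ∀ x, |x - c| ≤ r → |F1 x - F1 c| ≤ M * |x - c| := by
    intro x hx
    have hseg : ∀ y ∈ Set.uIcc c x, |y - c| ≤ r := by
      intro y hy
      have := Set.abs_sub_left_of_mem_uIcc hy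
      exact this.trans hx
    have := (convex_uIcc c x).norm_image_sub_le_of_norm_hasDerivWithin_le (f := F1) (f' := F2)
      (C := M) (fun y _ => (h2 y).hasDerivWithinAt)
      (fun y hy => by rw [Real.norm_eq_abs]; exact hM y (hseg y hy))
      Set.left_mem_uIcc Set.right_mem_uIcc
    simpa only [Real.norm_eq_abs] using this
  -- the auxiliary function
  have hg : ∀ x, HasDerivAt (fun x => F x - F1 c * (x - c) + M * (x - c) ^ 2 / 2)
      (F1 x - F1 c + M * (x - c)) x := by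
    intro x
    have hid : HasDerivAt (fun x : ℝ => x - c) 1 x := (hasDerivAt_id x).sub_const c
    have := ((h1 x).sub (hid.const_mul (F1 c))).add (((hid.pow 2).const_mul M).div_const 2)
    refine this.congr_deriv ?_
    push_cast
    ring
  have hkey : F c ≤ F t - F1 c * (t - c) + M * (t - c) ^ 2 / 2 := by
    have hc0 : (fun x => F x - F1 c * (x - c) + M * (x - c) ^ 2 / 2) c = F c := by
      simp
    rcases le_total c t with hct | hct
    · have hmono : MonotoneOn (fun x => F x - F1 c * (x - c) + M * (x - c) ^ 2 / 2)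
          (Set.Icc c t) := by
        apply monotoneOn_of_deriv_nonneg (convex_Icc _ _)
        · exact fun x _ => (hg x).continuousAt.continuousWithinAt
        · exact fun x _ => (hg x).differentiableAt.differentiableWithinAt
        · intro x hx
          rw [interior_Icc] at hx
          rw [(hg x).deriv]
          have hx1 : |x - c| ≤ r := by
            rw [abs_of_nonneg (by linarith [hx.1])]
            rw [abs_of_nonneg (by linarith)] at ht
            linarith [hx.2]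
          have := hLip x hx1
          rw [abs_of_nonneg (show 0 ≤ x - c by linarith [hx.1]), abs_le] at this
          linarith [this.1]
      have := hmono (Set.left_mem_Icc.2 hct) (Set.right_mem_Icc.2 hct) hct
      rw [hc0] at this
      exact this
    · have hmono : AntitoneOn (fun x => F x - F1 c * (x - c) + M * (x - c) ^ 2 / 2)
          (Set.Icc t c) := by
        apply antitoneOn_of_deriv_nonpos (convex_Icc _ _)
        · exact fun x _ => (hg x).continuousAt.continuousWithinAt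
        · exact fun x _ => (hg x).differentiableAt.differentiableWithinAt
        · intro x hx
          rw [interior_Icc] at hx
          rw [(hg x).deriv]
          have hx1 : |x - c| ≤ r := by
            rw [abs_sub_comm, abs_of_nonneg (by linarith [hx.2])]
            rw [abs_sub_comm, abs_of_nonneg (by linarith)] at ht
            linarith [hx.1]
          have := hLip x hx1
          rw [abs_sub_comm x c, abs_of_nonneg (show 0 ≤ c - x by linarith [hx.2]), abs_le] at this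
          linarith [this.2]
      have := hmono (Set.left_mem_Icc.2 hct) (Set.right_mem_Icc.2 hct) hct
      rw [hc0] at this
      exact this
  have h3 : F1 c * (t - c) ≥ -(|F1 c| * r) := by
    have := neg_abs_le (F1 c * (t - c))
    rw [abs_mul] at this
    have h4 : |F1 c| * |t - c| ≤ |F1 c| * r := by gcongr
    linarith
  have h5 : M * (t - c) ^ 2 ≤ M * r ^ 2 := by
    rw [← sq_abs (t - c)]
    gcongr
  linarith

/-- the test on one interval: centre `k / E`, radius `w / E`, `K / E` a bound for `|t|` -/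
def chk1 (E : ℤ) (P0 S0 C0 P1 S1 C1 P2 S2 C2 : List ℤ) (k w K : ℤ) : Bool :=
  let c := cz k E
  let s := sz k E
  let a := hv k E S0
  let b := hv k E C0
  let a1 := hv k E S1
  let b1 := hv k E C1
  decide (0 ≤ w) && decide (|k| + w ≤ K) && decide (|k| ≤ 13 * E) &&
  decide (0 < 2 * E ^ 2 * (hv k E P0 * 10000000000 + a * s + b * c - 20 * (|a| + |b|)) -
    2 * E * w * (|hv k E P1 * 10000000000 + a1 * s + b1 * c| + 20 * (|a1| + |b1|)) -
    10000000000 * (ha K E P2 + ha K E S2 + ha K E C2) * w ^ 2)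

/-- the test on consecutive intervals with end points `b_i / D`, `E = 2 D` -/
def chkL (E : ℤ) (P0 S0 C0 P1 S1 C1 P2 S2 C2 : List ℤ) : ℤ → List ℤ → Bool
  | _, [] => true
  | x, y :: l => chk1 E P0 S0 C0 P1 S1 C1 P2 S2 C2 (x + y) (y - x) (2 * max |x| |y|) &&
      chkL E P0 S0 C0 P1 S1 C1 P2 S2 C2 y l

/-- the last point -/
def lastD : ℤ → List ℤ → ℤ
  | x, [] => x
  | _, y :: l => lastD y l

theorem chk1_sound {F F1 F2 : ℝ → ℝ} (h1 : ∀ t, HasDerivAt F (F1 t) t)
    (h2 : ∀ t, HasDerivAt F1 (F2 t) t) {P0 S0 C0 P1 S1 C1 P2 S2 C2 : List ℤ} {n : ℕ}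
    (e0 : ∀ t, F t = ev P0 t + ev S0 t * sin t + ev C0 t * cos t)
    (e1 : ∀ t, F1 t = ev P1 t + ev S1 t * sin t + ev C1 t * cos t)
    (e2 : ∀ t, F2 t = ev P2 t + ev S2 t * sin t + ev C2 t * cos t)
    (hn : P0.length = n ∧ S0.length = n ∧ C0.length = n ∧ P1.length = n ∧ S1.length = n ∧
      C1.length = n ∧ P2.length = n ∧ S2.length = n ∧ C2.length = n)
    {E k w K : ℤ} (hE : 0 < E) (h : chk1 E P0 S0 C0 P1 S1 C1 P2 S2 C2 k w K = true) {t : ℝ}
    (ht : |t - k / E| ≤ w / E) : 0 < F t := by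
  obtain ⟨n0, n1, n2, n3, n4, n5, n6, n7, n8⟩ := hn
  have hEr : (0 : ℝ) < E := by exact_mod_cast hE
  simp only [chk1, Bool.and_eq_true, decide_eq_true_eq] at h
  obtain ⟨⟨⟨hw, hK⟩, hk13⟩, hmain⟩ := h
  have hwr : (0 : ℝ) ≤ w := by exact_mod_cast hw
  have hKr : |(k : ℝ)| + w ≤ K := by exact_mod_cast hK
  have hk13r : |(k : ℝ)| ≤ 13 * E := by exact_mod_cast hk13
  have hK0 : 0 ≤ K := le_trans (by positivity) hK
  have hkE : |(k : ℝ) / E| ≤ 13 := by
    rw [abs_div, abs_of_pos hEr, div_le_iff₀ hEr]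
    exact hk13r
  have hc := cz_bd hE hkE
  have hs := sz_bd hE hkE
  set cc := cos ((k : ℝ) / E) with hcc
  set ss := sin ((k : ℝ) / E) with hss
  -- the values at the centre
  have hEn : (0 : ℝ) < (E : ℝ) ^ n := by positivity
  have v0 : (hv k E P0 : ℝ) = (E : ℝ) ^ n * ev P0 (k / E) := by rw [hv_ev k hE, n0]
  have v1 : (hv k E S0 : ℝ) = (E : ℝ) ^ n * ev S0 (k / E) := by rw [hv_ev k hE, n1]
  have v2 : (hv k E C0 : ℝ) = (E : ℝ) ^ n * ev C0 (k / E) := by rw [hv_ev k hE, n2]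
  have v3 : (hv k E P1 : ℝ) = (E : ℝ) ^ n * ev P1 (k / E) := by rw [hv_ev k hE, n3]
  have v4 : (hv k E S1 : ℝ) = (E : ℝ) ^ n * ev S1 (k / E) := by rw [hv_ev k hE, n4]
  have v5 : (hv k E C1 : ℝ) = (E : ℝ) ^ n * ev C1 (k / E) := by rw [hv_ev k hE, n5]
  have hF0 : (E : ℝ) ^ n * (10 ^ 10 * F (k / E)) ≥ hv k E P0 * 10000000000 + hv k E S0 * sz k E +
      hv k E C0 * cz k E - 20 * (|(hv k E S0 : ℝ)| + |(hv k E C0 : ℝ)|) := by
    rw [e0, ← hcc, ← hss]
    have a1 : (hv k E S0 : ℝ) * sz k E ≤ hv k E S0 * (10 ^ 10 * ss) + |(hv k E S0 : ℝ)| * 20 := by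
      have : (hv k E S0 : ℝ) * (sz k E - 10 ^ 10 * ss) ≤ |(hv k E S0 : ℝ)| * 20 := by
        refine (le_abs_self _).trans ?_
        rw [abs_mul]
        gcongr
      linarith
    have a2 : (hv k E C0 : ℝ) * cz k E ≤ hv k E C0 * (10 ^ 10 * cc) + |(hv k E C0 : ℝ)| * 20 := by
      have : (hv k E C0 : ℝ) * (cz k E - 10 ^ 10 * cc) ≤ |(hv k E C0 : ℝ)| * 20 := by
        refine (le_abs_self _).trans ?_
        rw [abs_mul]
        gcongr
      linarith
    have a3 : (E : ℝ) ^ n * (10 ^ 10 * (ev P0 (k / E) + ev S0 (k / E) * ss + ev C0 (k / E) * cc)) =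
        hv k E P0 * 10000000000 + hv k E S0 * (10 ^ 10 * ss) + hv k E C0 * (10 ^ 10 * cc) := by
      rw [v0, v1, v2]
      ring
    rw [a3]
    linarith
  have hF1 : (E : ℝ) ^ n * (10 ^ 10 * |F1 (k / E)|) ≤
      |(hv k E P1 : ℝ) * 10000000000 + hv k E S1 * sz k E + hv k E C1 * cz k E| +
      20 * (|(hv k E S1 : ℝ)| + |(hv k E C1 : ℝ)|) := by
    have a3 : (E : ℝ) ^ n * (10 ^ 10 * F1 (k / E)) =
        (hv k E P1 * 10000000000 + hv k E S1 * sz k E + hv k E C1 * cz k E) +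
        (-(hv k E S1 * (sz k E - 10 ^ 10 * ss)) - hv k E C1 * (cz k E - 10 ^ 10 * cc)) := by
      rw [e1, ← hcc, ← hss, v3, v4, v5]
      ring
    have a4 : (E : ℝ) ^ n * (10 ^ 10 * |F1 (k / E)|) = |(E : ℝ) ^ n * (10 ^ 10 * F1 (k / E))| := by
      rw [abs_mul, abs_mul, abs_of_pos hEn]
      norm_num
    rw [a4, a3]
    refine (abs_add_le _ _).trans ?_
    gcongr
    refine (abs_sub _ _).trans ?_
    rw [abs_neg, abs_mul, abs_mul]
    have b1 : |(hv k E S1 : ℝ)| * |(sz k E : ℝ) - 10 ^ 10 * ss| ≤ |(hv k E S1 : ℝ)| * 20 := by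
      gcongr
    have b2 : |(hv k E C1 : ℝ)| * |(cz k E : ℝ) - 10 ^ 10 * cc| ≤ |(hv k E C1 : ℝ)| * 20 := by
      gcongr
    linarith
  -- the second derivative
  set m : ℝ := ((ha K E P2 + ha K E S2 + ha K E C2 : ℤ) : ℝ) with hm
  have hM : ∀ x : ℝ, |x - k / E| ≤ w / E → |F2 x| ≤ m / (E : ℝ) ^ n := by
    intro x hx
    have hxK : |x| ≤ K / E := by
      have h3 : |x| ≤ |x - k / E| + |(k : ℝ) / E| := by
        have := abs_add_le (x - k / E) ((k : ℝ) / E)
        simpa using this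
      have h4 : |(k : ℝ) / E| = |(k : ℝ)| / E := by rw [abs_div, abs_of_pos hEr]
      have h5 : (w : ℝ) / E + |(k : ℝ)| / E ≤ K / E := by
        rw [← add_div]
        gcongr
        linarith
      linarith
    have p2 := ha_ev hE hK0 P2 hxK
    have s2 := ha_ev hE hK0 S2 hxK
    have c2 := ha_ev hE hK0 C2 hxK
    rw [n6] at p2
    rw [n7] at s2
    rw [n8] at c2
    rw [le_div_iff₀ hEn, e2]
    have h6 : |ev P2 x + ev S2 x * sin x + ev C2 x * cos x| ≤ |ev P2 x| + |ev S2 x| + |ev C2 x| := by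
      refine (abs_add_le _ _).trans ?_
      refine add_le_add ((abs_add_le _ _).trans ?_) ?_
      · refine add_le_add le_rfl ?_
        rw [abs_mul]
        exact mul_le_of_le_one_right (abs_nonneg _) (abs_sin_le_one x)
      · rw [abs_mul]
        exact mul_le_of_le_one_right (abs_nonneg _) (abs_cos_le_one x)
    have h7 : |ev P2 x + ev S2 x * sin x + ev C2 x * cos x| * (E : ℝ) ^ n ≤
        (|ev P2 x| + |ev S2 x| + |ev C2 x|) * (E : ℝ) ^ n := by gcongr
    rw [hm]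
    push_cast
    linarith
  have hfin := taylor2 h1 h2 hM ht
  refine lt_of_lt_of_le ?_ hfin
  have hmainr : (0 : ℝ) < 2 * E ^ 2 * (hv k E P0 * 10000000000 + hv k E S0 * sz k E +
      hv k E C0 * cz k E - 20 * (|(hv k E S0 : ℝ)| + |(hv k E C0 : ℝ)|)) -
    2 * E * w * (|(hv k E P1 : ℝ) * 10000000000 + hv k E S1 * sz k E + hv k E C1 * cz k E| +
      20 * (|(hv k E S1 : ℝ)| + |(hv k E C1 : ℝ)|)) -
    10000000000 * m * w ^ 2 := by
    rw [hm]
    exact_mod_cast hmain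
  have q1 : 2 * (E : ℝ) ^ 2 * (hv k E P0 * 10000000000 + hv k E S0 * sz k E +
      hv k E C0 * cz k E - 20 * (|(hv k E S0 : ℝ)| + |(hv k E C0 : ℝ)|)) ≤
      2 * (E : ℝ) ^ 2 * ((E : ℝ) ^ n * (10 ^ 10 * F (k / E))) := by
    gcongr
  have q2 : 2 * (E : ℝ) * w * ((E : ℝ) ^ n * (10 ^ 10 * |F1 (k / E)|)) ≤
      2 * E * w * (|(hv k E P1 : ℝ) * 10000000000 + hv k E S1 * sz k E + hv k E C1 * cz k E| +
      20 * (|(hv k E S1 : ℝ)| + |(hv k E C1 : ℝ)|)) := by
    gcongr
  have q3 : 0 < 2 * (E : ℝ) ^ 2 * ((E : ℝ) ^ n * (10 ^ 10 * F (k / E))) -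
      2 * (E : ℝ) * w * ((E : ℝ) ^ n * (10 ^ 10 * |F1 (k / E)|)) - 10000000000 * m * w ^ 2 := by
    linarith
  have q4 : 2 * (E : ℝ) ^ 2 * ((E : ℝ) ^ n * (10 ^ 10 * F (k / E))) -
      2 * (E : ℝ) * w * ((E : ℝ) ^ n * (10 ^ 10 * |F1 (k / E)|)) - 10000000000 * m * w ^ 2 =
      (2 * (E : ℝ) ^ 2 * ((E : ℝ) ^ n * 10 ^ 10)) *
      (F (k / E) - |F1 (k / E)| * (w / E) - m / (E : ℝ) ^ n * (w / E) ^ 2 / 2) := by
    field_simp
    ring
  rw [q4] at q3
  by_contra hcon
  rw [not_lt] at hcon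
  have hpp : (0 : ℝ) ≤ 2 * (E : ℝ) ^ 2 * ((E : ℝ) ^ n * 10 ^ 10) := by positivity
  exact absurd q3 (not_lt.2 (mul_nonpos_of_nonneg_of_nonpos hpp hcon))

theorem chkL_sound {F F1 F2 : ℝ → ℝ} (h1 : ∀ t, HasDerivAt F (F1 t) t)
    (h2 : ∀ t, HasDerivAt F1 (F2 t) t) {P0 S0 C0 P1 S1 C1 P2 S2 C2 : List ℤ} (n : ℕ)
    (e0 : ∀ t, F t = ev P0 t + ev S0 t * sin t + ev C0 t * cos t)
    (e1 : ∀ t, F1 t = ev P1 t + ev S1 t * sin t + ev C1 t * cos t)
    (e2 : ∀ t, F2 t = ev P2 t + ev S2 t * sin t + ev C2 t * cos t)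
    (hn : P0.length = n ∧ S0.length = n ∧ C0.length = n ∧ P1.length = n ∧ S1.length = n ∧
      C1.length = n ∧ P2.length = n ∧ S2.length = n ∧ C2.length = n)
    {E : ℤ} (hE : 0 < E) (l : List ℤ) : ∀ x : ℤ, l ≠ [] →
      chkL E P0 S0 C0 P1 S1 C1 P2 S2 C2 x l = true →
      ∀ t : ℝ, 2 * x / E ≤ t → t ≤ 2 * (lastD x l) / E → 0 < F t := by
  have hEr : (0 : ℝ) < E := by exact_mod_cast hE
  induction l with
  | nil => intro x h; exact absurd rfl h
  | cons y l ih =>
    intro x _ hc t ht1 ht2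
    simp only [chkL, Bool.and_eq_true] at hc
    rcases le_or_gt t (2 * y / E) with h | h
    · refine chk1_sound h1 h2 e0 e1 e2 hn hE hc.1 ?_
      rw [abs_le]
      push_cast
      constructor
      · have : 2 * (x : ℝ) / E = (x + y) / E - (y - x) / E := by ring
        linarith
      · have : 2 * (y : ℝ) / E = (x + y) / E + (y - x) / E := by ring
        linarith
    · rcases eq_or_ne l [] with hl | hl
      · subst hl
        simp only [lastD] at ht2
        exact absurd ht2 (not_le.2 h)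
      · exact ih y hl hc.2 t h.le ht2

end Pool.Agent.TH298.GB
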