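import Pool.Agent.TH298.GB.Defs

/-! The basic certificate lemma: integrals of a concave function against a second derivative. -/

set_option autoImplicit false

namespace Pool.Agent.TH298.GB.GENf

open MeasureTheory Set Real

/-- summation by parts -/
theorem abel (n : ℕ) (sl Z : ℕ → ℝ) (hsl : ∀ i, i + 1 < n → sl (i + 1) ≤ sl i)
    (hZ : ∀ i ≤ n, Z i ≤ 0) (h0 : 0 ≤ sl 0 * Z 0) :
    ∀ k, k + 1 ≤ n →
      ∑ i ∈ Finset.range (k + 1), sl i * (Z (i + 1) - Z i) ≤ sl k * Z (k + 1) := by
  intro k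
  induction k with
  | zero =>
    intro _
    rw [Finset.sum_range_one]
    nlinarith
  | succ k ih =>
    intro hk
    rw [Finset.sum_range_succ]
    have h1 := ih (by omega)
    have h2 := hsl k (by omega)
    have h3 := hZ (k + 1) (by omega)
    nlinarith [mul_nonneg (sub_nonneg.2 h2) (neg_nonneg.2 h3)]

/-- the exact integral over one cell of the affine interpolant -/
theorem cell (p q u v : ℝ) (hpq : p < q) (Z Z1 Z2 : ℝ → ℝ) (h1 : ∀ t, HasDerivAt Z (Z1 t) t)
    (h2 : ∀ t, HasDerivAt Z1 (Z2 t) t) (hc : Continuous Z2) :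
    ∫ t in p..q, (u + (v - u) / (q - p) * (t - p)) * Z2 t =
      v * Z1 q - u * Z1 p - (v - u) / (q - p) * (Z q - Z p) := by
  have hne : q - p ≠ 0 := by linarith [sub_pos.2 hpq]
  have key : ∀ t, HasDerivAt (fun t => (u + (v - u) / (q - p) * (t - p)) * Z1 t -
      (v - u) / (q - p) * Z t) ((u + (v - u) / (q - p) * (t - p)) * Z2 t) t := by
    intro t
    have ha : HasDerivAt (fun t : ℝ => u + (v - u) / (q - p) * (t - p)) ((v - u) / (q - p)) t := by
      have := (((hasDerivAt_id t).sub_const p).const_mul ((v - u) / (q - p))).const_add u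
      simpa using this
    have hb := (ha.mul (h2 t)).sub ((h1 t).const_mul ((v - u) / (q - p)))
    refine hb.congr_deriv ?_
    ring
  rw [intervalIntegral.integral_eq_sub_of_hasDerivAt (fun t _ => key t)]
  · field_simp
    ring
  · apply Continuous.intervalIntegrable
    fun_prop

theorem deriv_end (b : ℝ) (hb : 0 < b) (Z Z1 : ℝ → ℝ) (h1 : ∀ t, HasDerivAt Z (Z1 t) t)
    (hZ : ∀ t ∈ Icc 0 b, Z t ≤ 0) (hZb : Z b = 0) : 0 ≤ Z1 b := by
  have h := (h1 b).hasDerivWithinAt (s := Iio b)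
  rw [hasDerivWithinAt_iff_tendsto_slope' (by simp)] at h
  refine ge_of_tendsto h ?_
  have : Ioo 0 b ∈ nhdsWithin b (Iio b) := Ioo_mem_nhdsLT hb
  filter_upwards [this] with t ht
  rw [slope_def_field, hZb]
  have := hZ t ⟨ht.1.le, ht.2.le⟩
  exact div_nonneg_of_nonpos (by linarith) (by linarith [ht.2])

theorem gen : Pool.Agent.TH298.GB.Gen := by
  intro b s Z Z1 Z2 hb hconc hcont hs0 hsb h1 h2 hc hZ hZb hor
  -- a bound for `Z2`
  obtain ⟨M, hM⟩ : ∃ M, ∀ t ∈ Icc 0 b, |Z2 t| ≤ M := by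
    obtain ⟨M, hM⟩ := isCompact_Icc.exists_bound_of_continuousOn (s := Icc (0:ℝ) b) hc.continuousOn
    exact ⟨M, fun t ht => by simpa using hM t ht⟩
  have hM0 : 0 ≤ M := le_trans (abs_nonneg _) (hM 0 ⟨le_rfl, hb.le⟩)
  have hend := deriv_end b hb Z Z1 h1 hZ hZb
  have hint : ∀ p q, p ∈ Icc 0 b → q ∈ Icc 0 b → p ≤ q →
      IntervalIntegrable (fun t => s t * Z2 t) volume p q := by
    intro p q hp hq hpq
    apply ContinuousOn.intervalIntegrable
    rw [uIcc_of_le hpq]
    exact (hcont.mono (Icc_subset_Icc hp.1 hq.2)).mul hc.continuousOn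
  -- it is enough to lose an arbitrary amount
  suffices H : ∀ ε : ℝ, 0 < ε → -(s 0 * Z1 0) ≤ (∫ t in (0 : ℝ)..b, s t * Z2 t) + ε * (M * b) by
    refine le_of_forall_pos_le_add ?_
    intro ε hε
    have hMb : 0 < M * b + 1 := by positivity
    have h3 := H (ε / (M * b + 1)) (by positivity)
    have h4 : ε / (M * b + 1) * (M * b) ≤ ε := by
      rw [div_mul_eq_mul_div, div_le_iff₀ hMb]
      nlinarith
    linarith
  intro ε hε
  have huc := isCompact_Icc.uniformContinuousOn_of_continuous hcont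
  rw [Metric.uniformContinuousOn_iff] at huc
  obtain ⟨δ, hδ, hδ2⟩ := huc ε hε
  obtain ⟨n, hn⟩ := exists_nat_gt (b / δ)
  have hn0 : 0 < n := by
    rcases Nat.eq_zero_or_pos n with rfl | h
    · exfalso
      have : 0 < b / δ := by positivity
      simp at hn
      linarith
    · exact h
  have hnR : (0 : ℝ) < n := by exact_mod_cast hn0
  set d : ℝ := b / n with hd
  have hd0 : 0 < d := by positivity
  have hdδ : d < δ := by
    rw [hd, div_lt_iff₀ hnR]
    rw [div_lt_iff₀ hδ] at hn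
    linarith
  have hnd : (n : ℝ) * d = b := by
    rw [hd]
    field_simp
  let τ : ℕ → ℝ := fun i => i * d
  have hτ : ∀ i ≤ n, τ i ∈ Icc 0 b := by
    intro i hi
    refine ⟨by positivity, ?_⟩
    rw [← hnd]
    have : (i : ℝ) ≤ n := by exact_mod_cast hi
    exact mul_le_mul_of_nonneg_right this hd0.le
  have hτs : ∀ i, τ (i + 1) - τ i = d := by
    intro i
    simp only [τ]
    push_cast
    ring
  have hτlt : ∀ i, τ i < τ (i + 1) := fun i => by linarith [hτs i]
  let sl : ℕ → ℝ := fun i => (s (τ (i + 1)) - s (τ i)) / (τ (i + 1) - τ i)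
  have hsl : ∀ i, i + 1 < n → sl (i + 1) ≤ sl i := fun i hi =>
    hconc.slope_anti_adjacent (hτ i (by omega)) (hτ (i + 2) (by omega)) (hτlt i) (hτlt (i + 1))
  have hsl0 : 0 ≤ sl 0 * Z (τ 0) := by
    have e0 : τ 0 = 0 := by simp [τ]
    rcases hor with h | h
    · rw [e0, h, mul_zero]
    · have h3 : sl 0 ≤ 0 := by
        apply div_nonpos_of_nonpos_of_nonneg
        · have := h (hτ 0 (by omega)) (hτ 1 (by omega)) (hτlt 0).le
          simp only [zero_add]
          linarith
        · linarith [hτs 0]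
      have h4 : Z (τ 0) ≤ 0 := hZ _ (hτ 0 (by omega))
      nlinarith
  have habel := abel n sl (fun i => Z (τ i)) hsl (fun i hi => hZ _ (hτ i hi)) hsl0 (n - 1) (by omega)
  have hn1 : n - 1 + 1 = n := by omega
  rw [hn1] at habel
  have e1 : τ n = b := hnd
  have e0 : τ 0 = 0 := by simp [τ]
  simp only [e1, hZb, mul_zero] at habel
  -- one cell
  have hcell : ∀ i, i < n → s (τ (i + 1)) * Z1 (τ (i + 1)) - s (τ i) * Z1 (τ i) -
      sl i * (Z (τ (i + 1)) - Z (τ i)) ≤ (∫ t in τ i..τ (i + 1), s t * Z2 t) + ε * (M * d) := by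
    intro i hi
    have hp := hτ i hi.le
    have hq := hτ (i + 1) hi
    have hlt := hτlt i
    rw [← cell (τ i) (τ (i + 1)) (s (τ i)) (s (τ (i + 1))) hlt Z Z1 Z2 h1 h2 hc]
    have hI2 : IntervalIntegrable (fun t => (s (τ i) + (s (τ (i + 1)) - s (τ i)) /
        (τ (i + 1) - τ i) * (t - τ i)) * Z2 t) volume (τ i) (τ (i + 1)) := by
      apply Continuous.intervalIntegrable
      fun_prop
    have hbd : ‖(∫ t in τ i..τ (i + 1), ((s (τ i) + (s (τ (i + 1)) - s (τ i)) /
        (τ (i + 1) - τ i) * (t - τ i)) * Z2 t - s t * Z2 t))‖ ≤ (ε * M) * |τ (i + 1) - τ i| := by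
      apply intervalIntegral.norm_integral_le_of_norm_le_const
      intro t ht
      rw [uIoc_of_le hlt.le] at ht
      have htI : t ∈ Icc 0 b := ⟨by linarith [hp.1, ht.1], by linarith [hq.2, ht.2]⟩
      rw [← sub_mul, norm_mul]
      refine mul_le_mul ?_ (by simpa using hM t htI) (norm_nonneg _) hε.le
      have ha := hδ2 (τ i) hp t htI (by
        rw [Real.dist_eq, abs_lt]
        constructor <;> linarith [ht.1, ht.2, hτs i])
      have hb' := hδ2 (τ (i + 1)) hq t htI (by
        rw [Real.dist_eq, abs_lt]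
        constructor <;> linarith [ht.1, ht.2, hτs i])
      rw [Real.dist_eq, abs_lt] at ha hb'
      set θ : ℝ := (t - τ i) / (τ (i + 1) - τ i) with hθ
      have hdpos : 0 < τ (i + 1) - τ i := by linarith
      have hθ0 : 0 ≤ θ := div_nonneg (by linarith [ht.1]) hdpos.le
      have hθ1 : θ ≤ 1 := by
        rw [hθ, div_le_one hdpos]
        linarith [ht.2]
      have e : s (τ i) + (s (τ (i + 1)) - s (τ i)) / (τ (i + 1) - τ i) * (t - τ i) - s t =
          (1 - θ) * (s (τ i) - s t) + θ * (s (τ (i + 1)) - s t) := by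
        rw [hθ]
        field_simp
        ring
      rw [e, Real.norm_eq_abs, abs_le]
      constructor <;> nlinarith [ha.1, ha.2, hb'.1, hb'.2, hθ0, hθ1]
    rw [intervalIntegral.integral_sub hI2 (hint _ _ hp hq hlt.le), hτs i, abs_of_pos hd0,
      Real.norm_eq_abs] at hbd
    have := le_of_abs_le hbd
    rw [hτs i]
    linarith
  have hsum : ∑ i ∈ Finset.range n, (∫ t in τ i..τ (i + 1), s t * Z2 t) =
      ∫ t in (0 : ℝ)..b, s t * Z2 t := by
    rw [intervalIntegral.sum_integral_adjacent_intervals (a := τ) (n := n)]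
    · rw [e0, e1]
    · intro i hi
      exact hint _ _ (hτ i hi.le) (hτ (i + 1) hi) (hτlt i).le
  have htot := Finset.sum_le_sum (fun i hi => hcell i (Finset.mem_range.1 hi))
  rw [Finset.sum_add_distrib, hsum, Finset.sum_const, Finset.card_range, nsmul_eq_mul,
    Finset.sum_sub_distrib, Finset.sum_range_sub (fun i => s (τ i) * Z1 (τ i))] at htot
  rw [e1, e0] at htot
  have h5 : 0 ≤ s b * Z1 b := mul_nonneg hsb hend
  have h6 : (n : ℝ) * (ε * (M * d)) = ε * (M * b) := by
    rw [← hnd]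
    ring
  rw [h6] at htot
  linarith

end Pool.Agent.TH298.GB.GENf
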