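import Pool.Agent.TH298.GB.Defs
import Pool.Agent.TH298.GB.GEN
import Pool.Agent.TH298.GB.Chk

/-! Every chord of a profile is at most `area / 5.38`. -/

set_option autoImplicit false

namespace Pool.Agent.TH298.GB.G2f

open MeasureTheory Set Real

/-- the primitive function of the certificate -/
noncomputable def G (al k x : ℝ) : ℝ := x ^ 2 / 2 - al * cos x - k * x

theorem G_deriv (al k x : ℝ) : HasDerivAt (G al k) (x + al * sin x - k) x := by
  have h1 : HasDerivAt (fun x : ℝ => x ^ 2 / 2) x x := by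
    have := ((hasDerivAt_id x).pow 2).div_const 2
    refine this.congr_deriv ?_
    simp
  have h2 := ((Real.hasDerivAt_cos x).const_mul al)
  have h3 := (hasDerivAt_id x).const_mul k
  have := (h1.sub h2).sub h3
  refine this.congr_deriv ?_
  ring

theorem G1_deriv (al k x : ℝ) : HasDerivAt (fun x => x + al * sin x - k) (1 + al * cos x) x := by
  have := ((hasDerivAt_id x).add ((Real.hasDerivAt_sin x).const_mul al)).sub_const k
  exact this

theorem mono (al k lo x0 c e : ℝ) (hx : x0 ≤ c) (hce : c ≤ e)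
    (hp : ∀ y, x0 ≤ y → y ≤ e → 0 < y + al * sin y - k)
    (hlow : ∀ y, lo ≤ y → y ≤ x0 → G al k y ≤ G al k c) :
    ∀ y ∈ Icc lo e, G al k y ≤ G al k e := by
  have hm : MonotoneOn (G al k) (Icc x0 e) := by
    apply monotoneOn_of_deriv_nonneg (convex_Icc _ _)
    · exact fun x _ => (G_deriv al k x).continuousAt.continuousWithinAt
    · exact fun x _ => (G_deriv al k x).differentiableAt.differentiableWithinAt
    · intro x hx
      rw [interior_Icc] at hx
      rw [(G_deriv al k x).deriv]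
      exact (hp x hx.1.le hx.2.le).le
  intro y hy
  rcases le_total y x0 with h | h
  · exact (hlow y hy.1 h).trans (hm ⟨hx, hce⟩ ⟨hx.trans hce, le_rfl⟩ hce)
  · exact hm ⟨h, hy.2⟩ ⟨hx.trans hce, le_rfl⟩ hy.2

/-- the right half -/
theorem side (al m k b : ℝ) (s : ℝ → ℝ) (hb : 0 < b) (hc : ConcaveOn ℝ (Icc 0 b) s)
    (hcont : ContinuousOn s (Icc 0 b)) (h0 : 0 ≤ s 0) (hsb : 0 ≤ s b)
    (hmax : ∀ x ∈ Icc 0 b, s x ≤ s 0)
    (hG : ∀ y ∈ Icc (-m) (b - m), G al k y ≤ G al k (b - m)) :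
    (m + al * sin m + k) * s 0 ≤ ∫ x in (0 : ℝ)..b, s x * (1 + al * cos (x - m)) := by
  have hanti : AntitoneOn s (Icc 0 b) := by
    intro x hx y hy hxy
    have h := hc.min_le_of_mem_Icc (⟨le_rfl, hb.le⟩ : (0 : ℝ) ∈ Icc 0 b) hy (z := x) ⟨hx.1, hxy⟩
    rwa [min_eq_right (hmax y hy)] at h
  have key := GENf.gen b s (fun x => G al k (x - m) - G al k (b - m))
    (fun x => (x - m) + al * sin (x - m) - k) (fun x => 1 + al * cos (x - m)) hb hc hcont h0 hsb
    (fun t => by
      have h1 : HasDerivAt (fun x : ℝ => x - m) 1 t := (hasDerivAt_id t).sub_const m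
      have := ((G_deriv al k (t - m)).comp t h1).sub_const (G al k (b - m))
      refine this.congr_deriv ?_
      ring)
    (fun t => by
      have h1 : HasDerivAt (fun x : ℝ => x - m) 1 t := (hasDerivAt_id t).sub_const m
      have := (G1_deriv al k (t - m)).comp t h1
      refine this.congr_deriv ?_
      ring)
    (by fun_prop)
    (fun t ht => by
      have := hG (t - m) ⟨by linarith [ht.1], by linarith [ht.2]⟩
      show G al k (t - m) - G al k (b - m) ≤ 0
      linarith)
    (by show G al k (b - m) - G al k (b - m) = 0; ring) (Or.inr hanti)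
  have e : -(s 0 * (0 - m + al * sin (0 - m) - k)) = (m + al * sin m + k) * s 0 := by
    rw [zero_sub, sin_neg]
    ring
  rw [e] at key
  exact key

theorem conc_add (A B : ℝ) (s : ℝ → ℝ) (hc : ConcaveOn ℝ (Icc A B) s) (t0 b : ℝ) (h1 : A ≤ t0)
    (h2 : t0 + b ≤ B) : ConcaveOn ℝ (Icc 0 b) (fun x => s (t0 + x)) := by
  refine ⟨convex_Icc _ _, ?_⟩
  intro x hx y hy p q hp hq hpq
  have := hc.2 (x := t0 + x) (y := t0 + y) ⟨by linarith [hx.1], by linarith [hx.2]⟩
    ⟨by linarith [hy.1], by linarith [hy.2]⟩ hp hq hpq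
  have e : p • (t0 + x) + q • (t0 + y) = t0 + (p • x + q • y) := by
    simp only [smul_eq_mul]
    linear_combination t0 * hpq
  rw [e] at this
  exact this

theorem conc_sub (A B : ℝ) (s : ℝ → ℝ) (hc : ConcaveOn ℝ (Icc A B) s) (t0 b : ℝ) (h1 : t0 ≤ B)
    (h2 : A ≤ t0 - b) : ConcaveOn ℝ (Icc 0 b) (fun x => s (t0 - x)) := by
  refine ⟨convex_Icc _ _, ?_⟩
  intro x hx y hy p q hp hq hpq
  have := hc.2 (x := t0 - x) (y := t0 - y) ⟨by linarith [hx.2], by linarith [hx.1]⟩
    ⟨by linarith [hy.2], by linarith [hy.1]⟩ hp hq hpq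
  have e : p • (t0 - x) + q • (t0 - y) = t0 - (p • x + q • y) := by
    simp only [smul_eq_mul]
    linear_combination t0 * hpq
  rw [e] at this
  exact this

theorem intble (A B : ℝ) (s : ℝ → ℝ) (h : Prof A B s) (g : ℝ → ℝ) (hg : Continuous g) (p q : ℝ)
    (hp : p ∈ Icc A B) (hq : q ∈ Icc A B) :
    IntervalIntegrable (fun t => s t * g t) volume p q := by
  apply ContinuousOn.intervalIntegrable
  exact (h.cont.mono ((convex_Icc A B).ordConnected.uIcc_subset hp hq)).mul hg.continuousOn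

theorem core (al m kL kR A B t0 : ℝ) (s : ℝ → ℝ) (h : Prof A B s) (h1 : A ≤ t0) (h2 : t0 < B)
    (hmax : ∀ x ∈ Icc A B, s x ≤ s t0)
    (hL : A < t0 → ∀ y ∈ Icc m (t0 - A + m), G al kL y ≤ G al kL (t0 - A + m))
    (hL0 : A = t0 → kL ≤ m + al * sin m)
    (hR : ∀ y ∈ Icc (-m) (B - t0 - m), G al kR y ≤ G al kR (B - t0 - m)) :
    (kL + kR) * s t0 ≤ ∫ x in A..B, s x := by
  have hAB : A ≤ B := h1.trans h2.le
  have htm : t0 ∈ Icc A B := ⟨h1, h2.le⟩
  have hst : 0 ≤ s t0 := h.nonneg t0 htm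
  -- the right side
  have r1 := side al m kR (B - t0) (fun x => s (t0 + x)) (by linarith)
    (conc_add A B s h.conc t0 _ h1 (by linarith))
    (h.cont.comp (by fun_prop) (fun x hx => ⟨by linarith [hx.1], by linarith [hx.2]⟩))
    (by simpa using hst) (h.nonneg _ ⟨by linarith, by linarith⟩)
    (fun x hx => by simpa using hmax _ ⟨by linarith [hx.1], by linarith [hx.2]⟩) hR
  have r2 : ∫ x in (0 : ℝ)..(B - t0), s (t0 + x) * (1 + al * cos (x - m)) =
      ∫ x in t0..B, s x * (1 + al * cos (x - t0 - m)) := by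
    have := intervalIntegral.integral_comp_add_left (a := 0) (b := B - t0)
      (fun x => s x * (1 + al * cos (x - t0 - m))) t0
    rw [add_zero, add_sub_cancel] at this
    rw [← this]
    refine intervalIntegral.integral_congr fun x _ => ?_
    show s (t0 + x) * (1 + al * cos (x - m)) = s (t0 + x) * (1 + al * cos (t0 + x - t0 - m))
    rw [add_sub_cancel_left]
  simp only [add_zero] at r1
  rw [r2] at r1
  -- the left side
  have l1 : (kL - m - al * sin m) * s t0 ≤ ∫ x in A..t0, s x * (1 + al * cos (x - t0 - m)) := by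
    rcases h1.eq_or_lt with he | hlt
    · rw [he, intervalIntegral.integral_same]
      have := hL0 he
      apply mul_nonpos_of_nonpos_of_nonneg (by linarith) hst
    · have := side al (-m) kL (t0 - A) (fun x => s (t0 - x)) (by linarith)
        (conc_sub A B s h.conc t0 _ h2.le (by linarith))
        (h.cont.comp (by fun_prop) (fun x hx => ⟨by linarith [hx.2], by linarith [hx.1]⟩))
        (by simpa using hst) (h.nonneg _ ⟨by linarith, by linarith⟩)
        (fun x hx => by simpa using hmax _ ⟨by linarith [hx.2], by linarith [hx.1]⟩)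
        (by rw [neg_neg, sub_neg_eq_add]; exact hL hlt)
      simp only [sub_zero, sin_neg, sub_neg_eq_add] at this
      have e2 : ∫ x in (0 : ℝ)..(t0 - A), s (t0 - x) * (1 + al * cos (x + m)) =
          ∫ x in A..t0, s x * (1 + al * cos (x - t0 - m)) := by
        have := intervalIntegral.integral_comp_sub_left (a := 0) (b := t0 - A)
          (fun x => s x * (1 + al * cos (x - t0 - m))) t0
        rw [sub_zero, sub_sub_cancel] at this
        rw [← this]
        refine intervalIntegral.integral_congr fun x _ => ?_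
        show s (t0 - x) * (1 + al * cos (x + m)) = s (t0 - x) * (1 + al * cos (t0 - x - t0 - m))
        rw [show t0 - x - t0 - m = -(x + m) by ring, cos_neg]
      rw [e2] at this
      refine le_trans (le_of_eq ?_) this
      ring
  -- sum
  have s1 : (∫ x in A..t0, s x * (1 + al * cos (x - t0 - m))) +
      ∫ x in t0..B, s x * (1 + al * cos (x - t0 - m)) =
      ∫ x in A..B, s x * (1 + al * cos (x - t0 - m)) :=
    intervalIntegral.integral_add_adjacent_intervals
      (intble A B s h _ (by fun_prop) A t0 ⟨le_rfl, hAB⟩ htm)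
      (intble A B s h _ (by fun_prop) t0 B htm ⟨hAB, le_rfl⟩)
  have s2 : ∫ x in A..B, s x * (1 + al * cos (x - t0 - m)) = ∫ x in A..B, s x := by
    have e : ∀ x, s x * (1 + al * cos (x - t0 - m)) = s x * 1 +
        (al * cos (t0 + m) * (s x * cos x) + al * sin (t0 + m) * (s x * sin x)) := by
      intro x
      rw [show x - t0 - m = x - (t0 + m) by ring, cos_sub]
      ring
    have i1 := intble A B s h (fun _ => 1) (by fun_prop) A B ⟨le_rfl, hAB⟩ ⟨hAB, le_rfl⟩
    have i2 := intble A B s h cos (by fun_prop) A B ⟨le_rfl, hAB⟩ ⟨hAB, le_rfl⟩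
    have i3 := intble A B s h sin (by fun_prop) A B ⟨le_rfl, hAB⟩ ⟨hAB, le_rfl⟩
    simp_rw [e]
    rw [intervalIntegral.integral_add i1 ((i2.const_mul _).add (i3.const_mul _)),
      intervalIntegral.integral_add (i2.const_mul _) (i3.const_mul _),
      intervalIntegral.integral_const_mul, intervalIntegral.integral_const_mul, h.fcos, h.fsin]
    simp
  rw [← s2, ← s1]
  refine le_trans (le_of_eq ?_) (add_le_add l1 r1)
  ring

/-! ### numerics -/

/-- positivity of the derivative of `G` -/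
theorem pos1 (A K x : ℤ) (l : List ℤ) (hl : l ≠ [])
    (h : chkL 2000 [-K, 1000] [A, 0] [0, 0] [1000, 0] [0, 0] [A, 0] [0, 0] [-A, 0] [0, 0] x l
      = true) (t : ℝ) (h1 : (x : ℝ) / 1000 ≤ t) (h2 : t ≤ (lastD x l : ℝ) / 1000) :
    0 < t + (A / 1000 : ℝ) * sin t - (K / 1000 : ℝ) := by
  have key := chkL_sound (F := fun t => -K + 1000 * t + A * sin t)
    (F1 := fun t => 1000 + A * cos t) (F2 := fun t => -(A * sin t))
    (fun t => by
      have := (((hasDerivAt_id t).const_mul 1000).const_add (-(K : ℝ))).add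
        ((Real.hasDerivAt_sin t).const_mul (A : ℝ))
      refine this.congr_deriv ?_
      ring)
    (fun t => by
      have := ((Real.hasDerivAt_cos t).const_mul (A : ℝ)).const_add 1000
      refine this.congr_deriv ?_
      ring)
    2 (fun t => by simp [ev]; ring) (fun t => by simp [ev]) (fun t => by simp [ev])
    (by simp) (by norm_num) l x hl h t (le_trans (le_of_eq (by push_cast; ring)) h1)
    (le_trans h2 (le_of_eq (by push_cast; ring)))
  have : t + (A / 1000 : ℝ) * sin t - (K / 1000 : ℝ) =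
      (-K + 1000 * t + A * sin t) / 1000 := by ring
  rw [this]
  positivity

/-- lower bounds of `G` -/
theorem pos2 (A K g x : ℤ) (l : List ℤ) (hl : l ≠ [])
    (h : chkL 2000 [-g, -20 * K, 10000] [0, 0, 0] [-20 * A, 0, 0] [-20 * K, 20000, 0]
      [20 * A, 0, 0] [0, 0, 0] [20000, 0, 0] [0, 0, 0] [20 * A, 0, 0] x l
      = true) (t : ℝ) (h1 : (x : ℝ) / 1000 ≤ t) (h2 : t ≤ (lastD x l : ℝ) / 1000) :
    (g / 20000 : ℝ) < G (A / 1000) (K / 1000) t := by
  have key := chkL_sound (F := fun t => -g + -20 * K * t + 10000 * t ^ 2 + -20 * A * cos t)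
    (F1 := fun t => -20 * K + 20000 * t + 20 * A * sin t) (F2 := fun t => 20000 + 20 * A * cos t)
    (fun t => by
      have := ((((hasDerivAt_id t).const_mul (-20 * (K : ℝ))).const_add (-(g : ℝ))).add
        (((hasDerivAt_id t).pow 2).const_mul 10000)).add
        ((Real.hasDerivAt_cos t).const_mul (-20 * (A : ℝ)))
      refine this.congr_deriv ?_
      simp
      ring)
    (fun t => by
      have := (((hasDerivAt_id t).const_mul 20000).const_add (-20 * (K : ℝ))).add
        ((Real.hasDerivAt_sin t).const_mul (20 * (A : ℝ)))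
      refine this.congr_deriv ?_
      ring)
    3 (fun t => by simp [ev]; ring) (fun t => by simp [ev]; ring) (fun t => by simp [ev])
    (by simp) (by norm_num) l x hl h t (le_trans (le_of_eq (by push_cast; ring)) h1)
    (le_trans h2 (le_of_eq (by push_cast; ring)))
  have : G (A / 1000) (K / 1000) t - g / 20000 =
      (-g + -20 * K * t + 10000 * t ^ 2 + -20 * A * cos t) / 20000 := by
    unfold G
    ring
  have h3 : 0 < G (A / 1000) (K / 1000) t - g / 20000 := by rw [this]; positivity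
  linarith

/-- upper bounds of `G` -/
theorem pos3 (A K g x : ℤ) (l : List ℤ) (hl : l ≠ [])
    (h : chkL 2000 [g, 20 * K, -10000] [0, 0, 0] [20 * A, 0, 0] [20 * K, -20000, 0]
      [-20 * A, 0, 0] [0, 0, 0] [-20000, 0, 0] [0, 0, 0] [-20 * A, 0, 0] x l
      = true) (t : ℝ) (h1 : (x : ℝ) / 1000 ≤ t) (h2 : t ≤ (lastD x l : ℝ) / 1000) :
    G (A / 1000) (K / 1000) t < (g / 20000 : ℝ) := by
  have key := chkL_sound (F := fun t => g + 20 * K * t + -10000 * t ^ 2 + 20 * A * cos t)
    (F1 := fun t => 20 * K + -20000 * t + -20 * A * sin t)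
    (F2 := fun t => -20000 + -20 * A * cos t)
    (fun t => by
      have := ((((hasDerivAt_id t).const_mul (20 * (K : ℝ))).const_add (g : ℝ)).add
        (((hasDerivAt_id t).pow 2).const_mul (-10000))).add
        ((Real.hasDerivAt_cos t).const_mul (20 * (A : ℝ)))
      refine this.congr_deriv ?_
      simp
      ring)
    (fun t => by
      have := (((hasDerivAt_id t).const_mul (-20000)).const_add (20 * (K : ℝ))).add
        ((Real.hasDerivAt_sin t).const_mul (-20 * (A : ℝ)))
      refine this.congr_deriv ?_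
      ring)
    3 (fun t => by simp [ev]; ring) (fun t => by simp [ev]; ring) (fun t => by simp [ev])
    (by simp) (by norm_num) l x hl h t (le_trans (le_of_eq (by push_cast; ring)) h1)
    (le_trans h2 (le_of_eq (by push_cast; ring)))
  have : g / 20000 - G (A / 1000) (K / 1000) t =
      (g + 20 * K * t + -10000 * t ^ 2 + 20 * A * cos t) / 20000 := by
    unfold G
    ring
  have h3 : 0 < g / 20000 - G (A / 1000) (K / 1000) t := by rw [this]; positivity
  linarith


/-- the values of `G` on the left of `e` -/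
theorem fin (A K g lo x0 c : ℤ) (l1 l2 : List ℤ) (hl1 : l1 ≠ []) (hl2 : l2 ≠ []) (hx : x0 ≤ c)
    (h1 : chkL 2000 [-K, 1000] [A, 0] [0, 0] [1000, 0] [0, 0] [A, 0] [0, 0] [-A, 0] [0, 0] x0 l1
      = true)
    (h2 : chkL 2000 [g, 20 * K, -10000] [0, 0, 0] [20 * A, 0, 0] [20 * K, -20000, 0]
      [-20 * A, 0, 0] [0, 0, 0] [-20000, 0, 0] [0, 0, 0] [-20 * A, 0, 0] lo l2 = true)
    (e2 : lastD lo l2 = x0)
    (h3 : chkL 2000 [-g, -20 * K, 10000] [0, 0, 0] [-20 * A, 0, 0] [-20 * K, 20000, 0]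
      [20 * A, 0, 0] [0, 0, 0] [20000, 0, 0] [0, 0, 0] [20 * A, 0, 0] c [c] = true)
    (e : ℝ) (he : (c / 1000 : ℝ) ≤ e) (hi : e ≤ (lastD x0 l1 : ℝ) / 1000) :
    ∀ y ∈ Icc (lo / 1000 : ℝ) e, G (A / 1000) (K / 1000) y ≤ G (A / 1000) (K / 1000) e := by
  have hxr : (x0 : ℝ) ≤ c := by exact_mod_cast hx
  refine mono _ _ _ (x0 / 1000) (c / 1000) e (by gcongr) he ?_ ?_
  · intro y hy1 hy2
    exact pos1 A K x0 l1 hl1 h1 y hy1 (hy2.trans hi)
  · intro y hy1 hy2
    have a1 := pos3 A K g lo l2 hl2 h2 y hy1 (by rw [e2]; exact hy2)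
    have a2 := pos2 A K g c [c] (by simp) h3 (c / 1000) le_rfl (by simp [lastD])
    linarith

theorem fin' (A K g lo x0 c : ℤ) (l1 l2 : List ℤ) (hl1 : l1 ≠ []) (hl2 : l2 ≠ []) (hx : x0 ≤ c)
    (h1 : chkL 2000 [-K, 1000] [A, 0] [0, 0] [1000, 0] [0, 0] [A, 0] [0, 0] [-A, 0] [0, 0] x0 l1
      = true)
    (h2 : chkL 2000 [g, 20 * K, -10000] [0, 0, 0] [20 * A, 0, 0] [20 * K, -20000, 0]
      [-20 * A, 0, 0] [0, 0, 0] [-20000, 0, 0] [0, 0, 0] [-20 * A, 0, 0] lo l2 = true)
    (e2 : lastD lo l2 = x0)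
    (h3 : chkL 2000 [-g, -20 * K, 10000] [0, 0, 0] [-20 * A, 0, 0] [-20 * K, 20000, 0]
      [20 * A, 0, 0] [0, 0, 0] [20000, 0, 0] [0, 0, 0] [20 * A, 0, 0] c [c] = true)
    (hA : 0 ≤ A) (hAK : A + K < lastD x0 l1)
    (e : ℝ) (he : (c / 1000 : ℝ) ≤ e) :
    ∀ y ∈ Icc (lo / 1000 : ℝ) e, G (A / 1000) (K / 1000) y ≤ G (A / 1000) (K / 1000) e := by
  have hxr : (x0 : ℝ) ≤ c := by exact_mod_cast hx
  refine mono _ _ _ (x0 / 1000) (c / 1000) e (by gcongr) he ?_ ?_
  · intro y hy1 hy2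
    rcases le_total y ((lastD x0 l1 : ℝ) / 1000) with h | h
    · exact pos1 A K x0 l1 hl1 h1 y hy1 h
    · have hAr : (0 : ℝ) ≤ A := by exact_mod_cast hA
      have hAKr : (A : ℝ) + K < lastD x0 l1 := by exact_mod_cast hAK
      have h5 : -((A : ℝ) / 1000) ≤ (A / 1000 : ℝ) * sin y := by
        have := neg_one_le_sin y
        nlinarith [div_nonneg hAr (by norm_num : (0 : ℝ) ≤ 1000)]
      have h6 : ((A : ℝ) + K) / 1000 < (lastD x0 l1 : ℝ) / 1000 := by gcongr
      rw [add_div] at h6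
      linarith
  · intro y hy1 hy2
    have a1 := pos3 A K g lo l2 hl2 h2 y hy1 (by rw [e2]; exact hy2)
    have a2 := pos2 A K g c [c] (by simp) h3 (c / 1000) le_rfl (by simp [lastD])
    linarith

theorem c1L (e : ℝ) (he : ((1400 : ℤ) / 1000 : ℝ) ≤ e) (hi : e ≤ ((2500 : ℤ) / 1000 : ℝ)) :
    ∀ y ∈ Icc ((1400 : ℤ) / 1000 : ℝ) e, G ((2900 : ℤ) / 1000) ((3982 : ℤ) / 1000) y ≤
      G ((2900 : ℤ) / 1000) ((3982 : ℤ) / 1000) e := by
  refine mono _ _ _ _ _ e le_rfl he ?_ ?_
  · intro y hy1 hy2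
    exact pos1 2900 3982 1400 [2500] (by simp) (by decide +kernel) y hy1
      (by simp only [lastD]; exact hy2.trans hi)
  · intro y hy1 hy2
    rw [le_antisymm hy2 hy1]

theorem c1L0 : ((3982 : ℤ) / 1000 : ℝ) ≤ (1400 : ℤ) / 1000 + (2900 : ℤ) / 1000 *
    sin ((1400 : ℤ) / 1000) := by
  have := pos1 2900 3982 1400 [2500] (by simp) (by decide +kernel) ((1400 : ℤ) / 1000) le_rfl
      (by simp only [lastD]; norm_num)
  linarith

theorem c1R (e : ℝ) (he : ((3783 : ℤ) / 1000 : ℝ) ≤ e) :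
    ∀ y ∈ Icc (((-1400) : ℤ) / 1000 : ℝ) e, G ((2900 : ℤ) / 1000) ((1398 : ℤ) / 1000) y ≤
      G ((2900 : ℤ) / 1000) ((1398 : ℤ) / 1000) e :=
  fin' 2900 1398 66350 (-1400) 710 3783 [3431, 4137, 4500] [710]
    (by simp) (by simp) (by norm_num) (by decide +kernel) (by decide +kernel) (by simp [lastD])
    (by decide +kernel) (by norm_num) (by simp [lastD]) e he

theorem c2L (e : ℝ) (he : ((2000 : ℤ) / 1000 : ℝ) ≤ e) (hi : e ≤ ((2800 : ℤ) / 1000 : ℝ)) :
    ∀ y ∈ Icc ((900 : ℤ) / 1000 : ℝ) e, G ((2250 : ℤ) / 1000) ((3344 : ℤ) / 1000) y ≤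
      G ((2250 : ℤ) / 1000) ((3344 : ℤ) / 1000) e :=
  fin 2250 3344 (-77550) 900 1580 2000 [2800] [1580]
    (by simp) (by simp) (by norm_num) (by decide +kernel) (by decide +kernel) (by simp [lastD])
    (by decide +kernel) e he (by simp only [lastD]; exact hi)

theorem c2R (e : ℝ) (he : ((3483 : ℤ) / 1000 : ℝ) ≤ e) :
    ∀ y ∈ Icc (((-900) : ℤ) / 1000 : ℝ) e, G ((2250 : ℤ) / 1000) ((2036 : ℤ) / 1000) y ≤
      G ((2250 : ℤ) / 1000) ((2036 : ℤ) / 1000) e :=
  fin' 2250 2036 19330 (-900) 1010 3483 [3391, 4088, 4500] [1010]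
    (by simp) (by simp) (by norm_num) (by decide +kernel) (by decide +kernel) (by simp [lastD])
    (by decide +kernel) (by norm_num) (by simp [lastD]) e he

theorem c3L (e : ℝ) (he : ((2350 : ℤ) / 1000 : ℝ) ≤ e) (hi : e ≤ ((3150 : ℤ) / 1000 : ℝ)) :
    ∀ y ∈ Icc ((450 : ℤ) / 1000 : ℝ) e, G ((2000 : ℤ) / 1000) ((3023 : ℤ) / 1000) y ≤
      G ((2000 : ℤ) / 1000) ((3023 : ℤ) / 1000) e :=
  fin 2000 3023 (-59970) 450 1530 2350 [3020, 3150] [1385, 1530]
    (by simp) (by simp) (by norm_num) (by decide +kernel) (by decide +kernel) (by simp [lastD])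
    (by decide +kernel) e he (by simp only [lastD]; exact hi)

theorem c3R (e : ℝ) (he : ((3133 : ℤ) / 1000 : ℝ) ≤ e) :
    ∀ y ∈ Icc (((-450) : ℤ) / 1000 : ℝ) e, G ((2000 : ℤ) / 1000) ((2357 : ℤ) / 1000) y ≤
      G ((2000 : ℤ) / 1000) ((2357 : ℤ) / 1000) e :=
  fin' 2000 2357 (-11160) (-450) 1200 3133 [3336, 3948, 4500] [1200]
    (by simp) (by simp) (by norm_num) (by decide +kernel) (by decide +kernel) (by simp [lastD])
    (by decide +kernel) (by norm_num) (by simp [lastD]) e he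

theorem c4L (e : ℝ) (he : ((2850 : ℤ) / 1000 : ℝ) ≤ e) (hi : e ≤ ((3450 : ℤ) / 1000 : ℝ)) :
    ∀ y ∈ Icc ((150 : ℤ) / 1000 : ℝ) e, G ((1900 : ℤ) / 1000) ((2857 : ℤ) / 1000) y ≤
      G ((1900 : ℤ) / 1000) ((2857 : ℤ) / 1000) e :=
  fin 1900 2857 (-45570) 150 1480 2850 [3121, 3435, 3450] [1012, 1480]
    (by simp) (by simp) (by norm_num) (by decide +kernel) (by decide +kernel) (by simp [lastD])
    (by decide +kernel) e he (by simp only [lastD]; exact hi)

theorem c4R (e : ℝ) (he : ((2833 : ℤ) / 1000 : ℝ) ≤ e) :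
    ∀ y ∈ Icc (((-150) : ℤ) / 1000 : ℝ) e, G ((1900 : ℤ) / 1000) ((2523 : ℤ) / 1000) y ≤
      G ((1900 : ℤ) / 1000) ((2523 : ℤ) / 1000) e :=
  fin' 1900 2523 (-28130) (-150) 1310 2833 [3289, 3826, 4072, 4312, 4500] [1310]
    (by simp) (by simp) (by norm_num) (by decide +kernel) (by decide +kernel) (by simp [lastD])
    (by decide +kernel) (by norm_num) (by simp [lastD]) e he

theorem c5L (e : ℝ) (he : ((3350 : ℤ) / 1000 : ℝ) ≤ e) (hi : e ≤ ((3750 : ℤ) / 1000 : ℝ)) :
    ∀ y ∈ Icc ((50 : ℤ) / 1000 : ℝ) e, G ((1750 : ℤ) / 1000) ((2732 : ℤ) / 1000) y ≤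
      G ((1750 : ℤ) / 1000) ((2732 : ℤ) / 1000) e :=
  fin 1750 2732 (-37120) 50 1490 3350 [3222, 3664, 3750] [1178, 1490]
    (by simp) (by simp) (by norm_num) (by decide +kernel) (by decide +kernel) (by simp [lastD])
    (by decide +kernel) e he (by simp only [lastD]; exact hi)

theorem c5R (e : ℝ) (he : ((3250 : ℤ) / 1000 : ℝ) ≤ e) :
    ∀ y ∈ Icc (((-50) : ℤ) / 1000 : ℝ) e, G ((1750 : ℤ) / 1000) ((2648 : ℤ) / 1000) y ≤
      G ((1750 : ℤ) / 1000) ((2648 : ℤ) / 1000) e :=
  fin' 1750 2648 (-31990) (-50) 1440 3250 [3268, 3787, 4035, 4276, 4500] [1039, 1440]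
    (by simp) (by simp) (by norm_num) (by decide +kernel) (by decide +kernel) (by simp [lastD])
    (by decide +kernel) (by norm_num) (by simp [lastD]) e he

theorem c6L (e : ℝ) (he : ((3700 : ℤ) / 1000 : ℝ) ≤ e) :
    ∀ y ∈ Icc ((0 : ℤ) / 1000 : ℝ) e, G ((1700 : ℤ) / 1000) ((2691 : ℤ) / 1000) y ≤
      G ((1700 : ℤ) / 1000) ((2691 : ℤ) / 1000) e :=
  fin' 1700 2691 (-33700) 0 1490 3700 [3259, 3769, 4011, 4246, 4500] [1034, 1490]
    (by simp) (by simp) (by norm_num) (by decide +kernel) (by decide +kernel) (by simp [lastD])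
    (by decide +kernel) (by norm_num) (by simp [lastD]) e he

theorem c6R (e : ℝ) (he : ((3700 : ℤ) / 1000 : ℝ) ≤ e) :
    ∀ y ∈ Icc ((0 : ℤ) / 1000 : ℝ) e, G ((1700 : ℤ) / 1000) ((2689 : ℤ) / 1000) y ≤
      G ((1700 : ℤ) / 1000) ((2689 : ℤ) / 1000) e :=
  fin' 1700 2689 (-33630) 0 1490 3700 [3260, 3772, 4020, 4261, 4500] [1090, 1490]
    (by simp) (by simp) (by norm_num) (by decide +kernel) (by decide +kernel) (by simp [lastD])
    (by decide +kernel) (by norm_num) (by simp [lastD]) e he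

theorem half (A B : ℝ) (s : ℝ → ℝ) (h : Prof A B s) (hw : 2 * π ≤ B - A) (t0 : ℝ)
    (ht : t0 ∈ Icc A B) (hmax : ∀ x ∈ Icc A B, s x ≤ s t0) (hab : t0 - A ≤ B - t0) :
    5.38 * s t0 ≤ ∫ x in A..B, s x := by
  have hpi := Real.pi_gt_d4
  obtain ⟨h1, h2⟩ := ht
  have h2' : t0 < B := by linarith
  rcases le_total (t0 - A) 1.1 with q1 | q1
  · refine le_trans (le_of_eq ?_) (core ((2900 : ℤ) / 1000) ((1400 : ℤ) / 1000) ((3982 : ℤ) / 1000) ((1398 : ℤ) / 1000) A B t0 s
      h h1 h2' hmax (fun _ => c1L _ (by push_cast; linarith) (by push_cast; linarith))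
      (fun _ => c1L0) (fun y hy => c1R _ (by push_cast; linarith) y ⟨le_trans (by push_cast; linarith) hy.1, hy.2⟩))
    push_cast
    ring
  rcases le_total (t0 - A) 1.9 with q2 | q2
  · refine le_trans (le_of_eq ?_) (core ((2250 : ℤ) / 1000) ((900 : ℤ) / 1000) ((3344 : ℤ) / 1000) ((2036 : ℤ) / 1000) A B t0 s
      h h1 h2' hmax (fun _ => c2L _ (by push_cast; linarith) (by push_cast; linarith))
      (fun h => by exfalso; linarith) (fun y hy => c2R _ (by push_cast; linarith) y ⟨le_trans (by push_cast; linarith) hy.1, hy.2⟩))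
    push_cast
    ring
  rcases le_total (t0 - A) 2.7 with q3 | q3
  · refine le_trans (le_of_eq ?_) (core ((2000 : ℤ) / 1000) ((450 : ℤ) / 1000) ((3023 : ℤ) / 1000) ((2357 : ℤ) / 1000) A B t0 s
      h h1 h2' hmax (fun _ => c3L _ (by push_cast; linarith) (by push_cast; linarith))
      (fun h => by exfalso; linarith) (fun y hy => c3R _ (by push_cast; linarith) y ⟨le_trans (by push_cast; linarith) hy.1, hy.2⟩))
    push_cast
    ring
  rcases le_total (t0 - A) 3.3 with q4 | q4
  · refine le_trans (le_of_eq ?_) (core ((1900 : ℤ) / 1000) ((150 : ℤ) / 1000) ((2857 : ℤ) / 1000) ((2523 : ℤ) / 1000) A B t0 s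
      h h1 h2' hmax (fun _ => c4L _ (by push_cast; linarith) (by push_cast; linarith))
      (fun h => by exfalso; linarith) (fun y hy => c4R _ (by push_cast; linarith) y ⟨le_trans (by push_cast; linarith) hy.1, hy.2⟩))
    push_cast
    ring
  rcases le_total (t0 - A) 3.7 with q5 | q5
  · refine le_trans (le_of_eq ?_) (core ((1750 : ℤ) / 1000) ((50 : ℤ) / 1000) ((2732 : ℤ) / 1000) ((2648 : ℤ) / 1000) A B t0 s
      h h1 h2' hmax (fun _ => c5L _ (by push_cast; linarith) (by push_cast; linarith))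
      (fun h => by exfalso; linarith) (fun y hy => c5R _ (by push_cast; linarith) y ⟨le_trans (by push_cast; linarith) hy.1, hy.2⟩))
    push_cast
    ring
  · refine le_trans (le_of_eq ?_) (core ((1700 : ℤ) / 1000) ((0 : ℤ) / 1000) ((2691 : ℤ) / 1000) ((2689 : ℤ) / 1000) A B t0 s
      h h1 h2' hmax (fun _ => c6L _ (by push_cast; linarith))
      (fun h => by exfalso; linarith) (fun y hy => c6R _ (by push_cast; linarith) y ⟨le_trans (by push_cast; linarith) hy.1, hy.2⟩))
    push_cast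
    ring

theorem g2' (A B : ℝ) (s : ℝ → ℝ) (h : Prof A B s) (hw : 2 * π ≤ B - A) :
    ∀ t ∈ Icc A B, 5.38 * s t ≤ ∫ x in A..B, s x := by
  obtain ⟨t0, ht0, hmax⟩ := isCompact_Icc.exists_isMaxOn (nonempty_Icc.2 h.lt.le) h.cont
  have hmax' : ∀ x ∈ Icc A B, s x ≤ s t0 := fun x hx => hmax hx
  intro t ht
  refine le_trans (mul_le_mul_of_nonneg_left (hmax' t ht) (by norm_num)) ?_
  rcases le_total (t0 - A) (B - t0) with hab | hab
  · exact half A B s h hw t0 ht0 hmax' hab
  · have hp : Prof (-B) (-A) (fun x => s (-x)) := by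
      refine ⟨by linarith [h.lt], ?_, ?_, ?_, ?_, ?_⟩
      · refine ⟨convex_Icc _ _, ?_⟩
        intro x hx y hy p q hp hq hpq
        have := h.conc.2 (x := -x) (y := -y) ⟨by linarith [hx.2], by linarith [hx.1]⟩
          ⟨by linarith [hy.2], by linarith [hy.1]⟩ hp hq hpq
        have e : p • (-x) + q • (-y) = -(p • x + q • y) := by
          simp only [smul_eq_mul]
          ring
        rw [e] at this
        exact this
      · exact h.cont.comp (by fun_prop) (fun x hx => ⟨by linarith [hx.2], by linarith [hx.1]⟩)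
      · exact fun x hx => h.nonneg _ ⟨by linarith [hx.2], by linarith [hx.1]⟩
      · have := intervalIntegral.integral_comp_neg (a := -B) (b := -A) (fun x => s x * cos x)
        rw [neg_neg, neg_neg, h.fcos] at this
        simpa only [cos_neg] using this
      · have := intervalIntegral.integral_comp_neg (a := -B) (b := -A) (fun x => s x * sin x)
        rw [neg_neg, neg_neg, h.fsin] at this
        simp only [sin_neg, mul_neg, intervalIntegral.integral_neg, neg_eq_zero] at this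
        exact this
    have := half (-B) (-A) (fun x => s (-x)) hp (by linarith) (-t0)
      ⟨by linarith [ht0.2], by linarith [ht0.1]⟩
      (fun x hx => by
        show s (-x) ≤ s (- -t0)
        rw [neg_neg]
        exact hmax' _ ⟨by linarith [hx.2], by linarith [hx.1]⟩) (by linarith)
    simp only [neg_neg] at this
    have e := intervalIntegral.integral_comp_neg (a := -B) (b := -A) s
    rw [neg_neg, neg_neg] at e
    rw [e] at this
    exact this

theorem g2 : Pool.Agent.TH298.GB.G2 := fun A B s h hw => g2' A B s h hw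

end Pool.Agent.TH298.GB.G2f
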