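import Pool.Agent.TH298.GB.Defs2
import Pool.Agent.TH259.FB.NF
import Pool.Agent.TH234.BK.OneA2
import Pool.Agent.TH234.BK.OneD

/-!
Project GB: geometric assembly (written by helper359, job 3575 of helper298).
-/

set_option autoImplicit false

namespace Pool.Agent.TH298.GB

open MeasureTheory Set Real

namespace GEOf

theorem area_pos {Ω : Set ℂ} (h : FT1 Ω) : 0 < (volume Ω).toReal :=
  ENNReal.toReal_pos (h.op.measure_pos volume h.ne).ne' h.bdd.measure_lt_top.ne

variable {Ω : Set ℂ} {u : ℂ} {a b : ℝ} {s : ℝ → ℝ}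

theorem inner_le {u x : ℂ} (hu : ‖u‖ = 1) : inner ℝ u x ≤ ‖x‖ := by
  have := real_inner_le_norm u x
  rw [hu, one_mul] at this
  exact this

theorem width_le (hF : FT1 Ω) (hu : ‖u‖ = 1) (h : PD Ω u a b s) {D : ℝ}
    (hD : ∀ x ∈ Ω, ∀ y ∈ Ω, ‖x - y‖ ≤ D) : b - a ≤ D := by
  by_contra hcon
  rw [not_le] at hcon
  obtain ⟨x0, hx0⟩ := hF.ne
  have hD0 : 0 ≤ D := by
    have := hD x0 hx0 x0 hx0
    rw [sub_self, norm_zero] at this
    exact this
  have hab := h.prof.lt
  obtain ⟨x1, hx1, e1⟩ := h.full (a + (b - a - D) / 4) ⟨by linarith, by linarith⟩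
  obtain ⟨x2, hx2, e2⟩ := h.full (b - (b - a - D) / 4) ⟨by linarith, by linarith⟩
  have h3 := hD x2 hx2 x1 hx1
  have h4 : inner ℝ u (x2 - x1) ≤ ‖x2 - x1‖ := inner_le hu
  rw [inner_sub_right, e1, e2] at h4
  linarith

theorem s_int (h : PD Ω u a b s) : IntervalIntegrable s volume a b := by
  apply ContinuousOn.intervalIntegrable
  rw [uIcc_of_le h.prof.lt.le]
  exact h.prof.cont

theorem mid_pos (h : PD Ω u a b s) (hA : 0 < (volume Ω).toReal) : 0 < s ((a + b) / 2) := by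
  by_contra hcon
  rw [not_lt] at hcon
  have hab := h.prof.lt
  have hz : ∀ t ∈ Icc a b, s t = 0 := by
    intro t ht
    have ht' : a + b - t ∈ Icc a b := ⟨by linarith [ht.2], by linarith [ht.1]⟩
    have h1 := h.prof.conc.2 ht ht' (show (0 : ℝ) ≤ 1 / 2 by norm_num)
      (show (0 : ℝ) ≤ 1 / 2 by norm_num) (by norm_num)
    simp only [smul_eq_mul] at h1
    have e : 1 / 2 * t + 1 / 2 * (a + b - t) = (a + b) / 2 := by ring
    rw [e] at h1
    have h2 := h.prof.nonneg t ht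
    have h3 := h.prof.nonneg _ ht'
    linarith
  have h1 : ∫ t in a..b, s t = 0 := by
    rw [intervalIntegral.integral_congr (g := fun _ => (0 : ℝ))]
    · simp
    · intro t ht
      rw [uIcc_of_le hab.le] at ht
      exact hz t ht
  rw [h.area] at h1
  linarith

theorem cos_zero (h : PD Ω u a b s) (c : ℝ) : ∫ t in a..b, s t * cos (t - c) = 0 := by
  have hi := s_int h
  have i1 : IntervalIntegrable (fun t => s t * cos t) volume a b :=
    hi.mul_continuousOn continuous_cos.continuousOn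
  have i2 : IntervalIntegrable (fun t => s t * sin t) volume a b :=
    hi.mul_continuousOn continuous_sin.continuousOn
  have e : ∀ t, s t * cos (t - c) = cos c * (s t * cos t) + sin c * (s t * sin t) := by
    intro t
    rw [cos_sub]
    ring
  simp only [e]
  rw [intervalIntegral.integral_add (i1.const_mul _) (i2.const_mul _),
    intervalIntegral.integral_const_mul, intervalIntegral.integral_const_mul, h.prof.fcos,
    h.prof.fsin]
  ring

theorem width_ge (hF : FT1 Ω) (h : PD Ω u a b s) : 2 * π ≤ b - a := by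
  by_contra hcon
  rw [not_le] at hcon
  have hab := h.prof.lt
  obtain ⟨c, hc⟩ : ∃ c, c = (a + b) / 2 := ⟨_, rfl⟩
  obtain ⟨d, hd⟩ : ∃ d, d = (b - a) / 2 := ⟨_, rfl⟩
  have e1 : c - d = a := by rw [hc, hd]; ring
  have e2 : c + d = b := by rw [hc, hd]; ring
  have h1 := Pool.Agent.TH234.BK.small (h := d) (c := c) (f := s) (by linarith) (by linarith)
    (by rw [e1, e2]; exact h.prof.conc) (by rw [e1, e2]; exact h.prof.cont)
    (by rw [e1, e2]; exact h.prof.nonneg) (by rw [hc]; exact mid_pos h (area_pos hF))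
  rw [e1, e2, cos_zero h c] at h1
  exact lt_irrefl _ h1

theorem area_le (hF : FT1 Ω) (h : PD Ω u a b s) (h4 : b - a < 4 * π) {M : ℝ}
    (hM : ∀ t ∈ Icc a b, s t ≤ M) : (volume Ω).toReal ≤ 2 * π * M := by
  have hab := h.prof.lt
  rw [← h.area]
  rcases (width_ge hF h).eq_or_lt with h0 | h0
  · have h1 : ∫ t in a..b, s t ≤ ∫ _t in a..b, M :=
      intervalIntegral.integral_mono_on hab.le (s_int h) intervalIntegrable_const hM
    rw [intervalIntegral.integral_const, smul_eq_mul, ← h0] at h1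
    exact h1
  · obtain ⟨c, hc⟩ : ∃ c, c = (a + b) / 2 := ⟨_, rfl⟩
    obtain ⟨d, hd⟩ : ∃ d, d = (b - a) / 2 := ⟨_, rfl⟩
    have e1 : c - d = a := by rw [hc, hd]; ring
    have e2 : c + d = b := by rw [hc, hd]; ring
    have h1 := Pool.Agent.TH234.BK.upper (h := d) (c := c) (f := s) (M := M) (by linarith)
      (by linarith) (by rw [e1, e2]; exact h.prof.conc) (by rw [e1, e2]; exact h.prof.cont)
      (by rw [e1, e2]; exact hM) (by rw [e1, e2]; exact cos_zero h c)
    rw [e1, e2] at h1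
    exact h1

theorem mem_cl (h : PD Ω u a b s) : ∀ x ∈ closure Ω, a ≤ inner ℝ u x ∧ inner ℝ u x ≤ b := by
  have hc : Continuous fun x : ℂ => inner ℝ u x := continuous_const.inner continuous_id
  have hcl : IsClosed {x : ℂ | a ≤ inner ℝ u x ∧ inner ℝ u x ≤ b} :=
    (isClosed_le continuous_const hc).inter (isClosed_le hc continuous_const)
  have hsub : Ω ⊆ {x : ℂ | a ≤ inner ℝ u x ∧ inner ℝ u x ≤ b} := fun y hy =>
    ⟨(h.mem y hy).1.le, (h.mem y hy).2.le⟩
  intro x hx
  exact closure_minimal hsub hcl hx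

/-- all widths are large -/
theorem width_area (hp : ProfOf) (hF : FT1 Ω) {D : ℝ} (hD : ∀ x ∈ Ω, ∀ y ∈ Ω, ‖x - y‖ ≤ D)
    (hD4 : D < 4 * π) (hu : ‖u‖ = 1) (h : PD Ω u a b s) :
    (volume Ω).toReal ≤ 2 * π * (b - a) := by
  have hv : ‖-(Complex.I * u)‖ = 1 := by
    rw [norm_neg, norm_mul, Complex.norm_I, one_mul, hu]
  obtain ⟨a', b', s', h'⟩ := hp Ω hF _ hv
  have hab' := h'.prof.lt
  obtain ⟨t0, ht0, hmax⟩ := isCompact_Icc.exists_isMaxOn (nonempty_Icc.2 hab'.le) h'.prof.cont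
  have h1 := area_le hF h' ((width_le hF hv h' hD).trans_lt hD4) (M := s' t0)
    (fun t ht => hmax ht)
  obtain ⟨P, hP, hPs⟩ := h'.attained t0 ht0
  have e : Complex.I * -(Complex.I * u) = u := by
    have : Complex.I * -(Complex.I * u) = -(Complex.I * Complex.I) * u := by ring
    rw [this, Complex.I_mul_I]
    ring
  rw [e] at hPs
  have h2 := mem_cl h P hP
  have h3 := mem_cl h _ hPs
  have e2 : inner ℝ u (P + (s' t0 : ℂ) * u) = inner ℝ u P + s' t0 := by
    rw [inner_add_right, ← Complex.real_smul, real_inner_smul_right, real_inner_self_eq_norm_sq,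
      hu]
    ring
  rw [e2] at h3
  have h4 : s' t0 ≤ b - a := by linarith [h2.1, h3.2]
  exact h1.trans (mul_le_mul_of_nonneg_left h4 (by linarith [pi_pos]))

/-- chords and the area -/
theorem chord_area (hp : ProfOf) (hg : G2) (hF : FT1 Ω) (P Q : ℂ) (hP : P ∈ Ω) (hQ : Q ∈ Ω) :
    5.38 * ‖P - Q‖ ≤ (volume Ω).toReal := by
  rcases eq_or_ne P Q with rfl | hne
  · rw [sub_self, norm_zero, mul_zero]
    exact ENNReal.toReal_nonneg
  have hw : P - Q ≠ 0 := sub_ne_zero.2 hne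
  have hn : 0 < ‖P - Q‖ := norm_pos_iff.2 hw
  obtain ⟨v, hv⟩ : ∃ v : ℂ, v = (‖P - Q‖⁻¹ : ℝ) • (Complex.I * (P - Q)) := ⟨_, rfl⟩
  have hv1 : ‖v‖ = 1 := by
    rw [hv, norm_smul, norm_mul, Complex.norm_I, one_mul, Real.norm_eq_abs,
      abs_of_pos (inv_pos.2 hn), inv_mul_cancel₀ hn.ne']
  obtain ⟨a, b, s, h⟩ := hp Ω hF v hv1
  have h0 : inner ℝ v P = inner ℝ v Q := by
    have : inner ℝ v (P - Q) = 0 := by
      rw [hv, real_inner_smul_left, Complex.inner]
      simp [Complex.mul_re, Complex.mul_im]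
      right
      ring
    rw [inner_sub_right] at this
    linarith
  obtain ⟨t, ht, hts⟩ := h.chord P (subset_closure hP) Q (subset_closure hQ) h0
  have h1 := hg a b s h.prof (width_ge hF h) t ht
  rw [h.area] at h1
  have : 5.38 * ‖P - Q‖ ≤ 5.38 * s t := mul_le_mul_of_nonneg_left hts (by norm_num)
  exact this.trans h1

theorem near_use {w d : ℝ} (hN : Near w d) (hF : FT1 Ω) (h : PD Ω u a b s) (h1 : w ≤ b - a)
    (h2 : b - a ≤ 4 * π) : a ≤ -d := by
  have hi := s_int h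
  have h3 := hN a b s h.prof h1 h2
  have i1 : IntervalIntegrable (fun t => t * s t) volume a b :=
    hi.continuousOn_mul continuous_id.continuousOn
  have e : ∀ t, (t - a) * s t = t * s t - a * s t := fun t => by ring
  simp only [e] at h3
  rw [intervalIntegral.integral_sub i1 (hi.const_mul a), intervalIntegral.integral_const_mul,
    h.cen, h.area, zero_sub] at h3
  have h4 := area_pos hF
  have h5 : (volume Ω).toReal * (a + d) ≤ 0 := by linarith
  by_contra hcon
  rw [not_le] at hcon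
  have : 0 < (volume Ω).toReal * (a + d) := mul_pos h4 (by linarith)
  linarith

theorem far_use {l R : ℝ} (hN : Far 0 l R) (hF : FT1 Ω) (h : PD Ω u a b s)
    (h2 : b - a ≤ l) : b ≤ R := by
  have hi := s_int h
  have h3 := hN a b s h.prof (by linarith [h.prof.lt]) h2
  have i1 : IntervalIntegrable (fun t => t * s t) volume a b :=
    hi.continuousOn_mul continuous_id.continuousOn
  have e : ∀ t, (b - t) * s t = b * s t - t * s t := fun t => by ring
  simp only [e] at h3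
  rw [intervalIntegral.integral_sub (hi.const_mul b) i1, intervalIntegral.integral_const_mul,
    h.cen, h.area, sub_zero] at h3
  exact le_of_mul_le_mul_right h3 (area_pos hF)

theorem far_ball (hp : ProfOf) {l R : ℝ} (hN : Far 0 l R) (hR : 0 ≤ R) (hF : FT1 Ω) {D : ℝ}
    (hD : ∀ x ∈ Ω, ∀ y ∈ Ω, ‖x - y‖ ≤ D) (hDl : D ≤ l) : ∀ x ∈ Ω, ‖x‖ ≤ R := by
  intro x hx
  rcases eq_or_ne x 0 with rfl | hne
  · rw [norm_zero]
    exact hR
  have hn : 0 < ‖x‖ := norm_pos_iff.2 hne
  have hv1 : ‖(‖x‖⁻¹ : ℝ) • x‖ = 1 := by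
    rw [norm_smul, Real.norm_eq_abs, abs_of_pos (inv_pos.2 hn), inv_mul_cancel₀ hn.ne']
  obtain ⟨a, b, s, h⟩ := hp Ω hF _ hv1
  have h1 := far_use hN hF h ((width_le hF hv1 h hD).trans hDl)
  have h2 := (h.mem x hx).2
  rw [real_inner_smul_left, real_inner_self_eq_norm_sq, pow_two, ← mul_assoc,
    inv_mul_cancel₀ hn.ne', one_mul] at h2
  linarith

theorem near_ball (hp : ProfOf) {w d : ℝ} (hN : Near w d) (hF : FT1 Ω) {D : ℝ}
    (hD : ∀ x ∈ Ω, ∀ y ∈ Ω, ‖x - y‖ ≤ D) (hD4 : D < 4 * π)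
    (hw : 2 * π * w ≤ (volume Ω).toReal) : Metric.ball (0 : ℂ) d ⊆ Ω := by
  intro x hx
  rw [mem_ball_zero_iff] at hx
  by_contra hcon
  obtain ⟨f, hf⟩ := geometric_hahn_banach_open_point hF.conv hF.op hcon
  obtain ⟨v, hv⟩ : ∃ v : ℂ, ∀ y, f y = inner ℝ v y :=
    ⟨(InnerProductSpace.toDual ℝ ℂ).symm f, fun y => by simp⟩
  obtain ⟨x0, hx0⟩ := hF.ne
  have hv0 : v ≠ 0 := by
    rintro rfl
    have := hf x0 hx0
    rw [hv, hv, inner_zero_left, inner_zero_left] at this
    exact lt_irrefl _ this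
  have hn : 0 < ‖v‖ := norm_pos_iff.2 hv0
  obtain ⟨u, hu⟩ : ∃ u : ℂ, u = (-‖v‖⁻¹ : ℝ) • v := ⟨_, rfl⟩
  have hu1 : ‖u‖ = 1 := by
    rw [hu, norm_smul, Real.norm_eq_abs, abs_neg, abs_of_pos (inv_pos.2 hn),
      inv_mul_cancel₀ hn.ne']
  obtain ⟨a, b, s, h⟩ := hp Ω hF u hu1
  have h1 : ∀ y ∈ Ω, inner ℝ u x < inner ℝ u y := by
    intro y hy
    have h2 := hf y hy
    rw [hv, hv] at h2
    rw [hu, real_inner_smul_left, real_inner_smul_left]
    have := inv_pos.2 hn
    nlinarith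
  have h2 : inner ℝ u x ≤ a := by
    by_contra hcon2
    rw [not_le] at hcon2
    have h3 := h1 x0 hx0
    have h4 := h.mem x0 hx0
    obtain ⟨y, hy, hye⟩ := h.full (inner ℝ u x) ⟨hcon2, by linarith [h4.2]⟩
    have h5 := h1 y hy
    rw [hye] at h5
    exact lt_irrefl _ h5
  have h3 : -‖x‖ ≤ inner ℝ u x := by
    have h4 := inner_le (u := u) (x := -x) hu1
    rw [inner_neg_right, norm_neg] at h4
    linarith
  have h5 : w ≤ b - a := by
    have h6 := width_area hp hF hD hD4 hu1 h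
    have h7 : 2 * π * w ≤ 2 * π * (b - a) := hw.trans h6
    exact le_of_mul_le_mul_left h7 (by linarith [pi_pos])
  have h8 := near_use hN hF h h5 ((width_le hF hu1 h hD).trans hD4.le)
  linarith

end GEOf

open GEOf in
theorem geo (hp : ProfOf) (hg : G2) (h1 : Area 3.41 5.265 49.2) (h2 : Area 3.41 5.53 51.1)
    (h3 : Area 3.78 6.6 54.8) : Geo := by
  intro Ω hF hD4 x hx
  obtain ⟨D, hDd⟩ : ∃ D, D = Metric.diam Ω := ⟨_, rfl⟩
  obtain ⟨A, hAd⟩ : ∃ A, A = (volume Ω).toReal := ⟨_, rfl⟩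
  rw [← hDd] at hD4
  have hD : ∀ x ∈ Ω, ∀ y ∈ Ω, ‖x - y‖ ≤ D := by
    intro x hx y hy
    rw [← dist_eq_norm, hDd]
    exact Metric.dist_le_diam_of_mem hF.bdd hx hy
  have hA : 5.38 * D ≤ A := by
    have h4 : D ≤ A / 5.38 := by
      rw [hDd]
      refine Metric.diam_le_of_forall_dist_le (div_nonneg (by rw [hAd]; exact
        ENNReal.toReal_nonneg) (by norm_num)) fun x hx y hy => ?_
      rw [dist_eq_norm, le_div_iff₀ (by norm_num), hAd]
      have := chord_area hp hg hF x y hx hy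
      linarith
    rw [le_div_iff₀ (by norm_num)] at h4
    linarith
  have hpi := pi_lt_d4
  by_cases c1 : D ≤ 9.15
  · exact far_ball hp TH259.FB.far_full_a (by norm_num) hF hD c1 x hx
  rw [not_le] at c1
  exfalso
  by_cases c2 : D ≤ 9.5
  · have hb : Metric.ball (0 : ℂ) 3.41 ⊆ Ω := near_ball hp TH259.FB.near_b hF hD hD4 (by
      rw [← hAd]
      linarith)
    have hr := far_ball hp TH259.FB.far_full_b (by norm_num) hF hD c2
    have := h1 Ω hF.op hF.conv hF.bdd hF.fcos hb hr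
    rw [← hAd] at this
    linarith
  rw [not_le] at c2
  by_cases c3 : D ≤ 10.2
  · have hb : Metric.ball (0 : ℂ) 3.41 ⊆ Ω := near_ball hp TH259.FB.near_b hF hD hD4 (by
      rw [← hAd]
      linarith)
    have hr := far_ball hp TH259.FB.far_full_c (by norm_num) hF hD c3
    have := h2 Ω hF.op hF.conv hF.bdd hF.fcos hb hr
    rw [← hAd] at this
    linarith
  rw [not_le] at c3
  have hb : Metric.ball (0 : ℂ) 3.78 ⊆ Ω := near_ball hp TH259.FB.near_c hF hD hD4 (by
    rw [← hAd]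
    linarith)
  have hr := far_ball hp TH259.FB.far_full_d (by norm_num) hF hD
    (hD4.le.trans TH259.FB.pi4_lt.le)
  have := h3 Ω hF.op hF.conv hF.bdd hF.fcos hb hr
  rw [← hAd] at this
  linarith

end Pool.Agent.TH298.GB
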