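import Mathlib
import Pool.Agent.TH298.GB.Fin
import Pool.Agent.TH298.GB.GEO
import Pool.Agent.TH298.GB.AREA
import Pool.Agent.TH298.GB.G2
import Pool.Agent.TH45.J.J3576
import Pool.Agent.TH259.FB.PROF
import Pool.Agent.TH259.FB.Band

/-!
Project GB: the theorem.
-/

set_option autoImplicit false

namespace Pool.Agent.TH298.GB

open MeasureTheory Set Real Filter Topology Metric Pool.Agent.TH298.Sch

variable {Ω : Set ℂ} {lam c : ℝ} {u : ℂ → ℝ} {G : ℂ → ℂ}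

theorem geo_main : Geo :=
  geo TH259.FB.prof_of G2f.g2 AREAf.area1 AREAf.area2 AREAf.area3

theorem first_band (ho : IsOpen Ω) (hcv : Convex ℝ Ω) (hb : Bornology.IsBounded Ω)
    (hne : Ω.Nonempty) (hlam : 0 < lam) {v : ℂ} (hv : ‖v‖ = 1) {w : ℝ}
    (hw : ∀ x ∈ Ω, ∀ y ∈ Ω, inner ℝ v (x - y) ≤ w) (hwl : √lam * w < 4 * π)
    (h : Sol Ω lam c u G) (hu0 : ¬ (u =ᵐ[volume.restrict Ω] 0)) :
    ∃ (p : ℂ) (r : ℝ), 0 < r ∧ Ω = ball p r := by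
  have hk : 0 < √lam := Real.sqrt_pos.2 hlam
  have hkk : √lam ^ 2 = lam := Real.sq_sqrt hlam.le
  have hft : ∀ ξ : ℂ, ‖ξ‖ = √lam → ∫ x in Ω, Real.cos (inner ℝ ξ x) = 0 ∧
      ∫ x in Ω, Real.sin (inner ℝ ξ x) = 0 := fun ξ hξ =>
    Pool.Agent.W632.Schiffer.ft_zero hb ho.measurableSet hlam h.u2 h.h1 h.h2 hu0 ξ
      (by rw [hξ, hkk])
  have hd := TH259.FB.band_r ho hcv hb hne hk (fun ξ hξ => (hft ξ hξ).1)
    (fun ξ hξ => (hft ξ hξ).2) hv hw hwl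
  exact fin_thm geo_main (fun S hS => Pool.Agent.TH45.J3576.comp_two' hS) ho hcv hb hne hlam hd
    h hu0

end Pool.Agent.TH298.GB
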