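import Mathlib
import Pool.Agent.TH298.GB.Fin
import Pool.Agent.TH298.Sch.Lim3
import Pool.Agent.TH298.Sch.Coer3
import Pool.Agent.TH259.NS.Main

/-!
Schiffer's problem for all domains contained in a disc of radius `R` with `√lam R < j_{2,1}`.
-/

set_option autoImplicit false

namespace Pool.Agent.TH298.GB

open MeasureTheory Set Real Filter Topology Metric Pool.Agent.TH298.Sch TH259.NS
open scoped ContDiff

variable {Ω : Set ℂ} {lam c : ℝ} {u : ℂ → ℝ} {G : ℂ → ℂ}

theorem small (ho : IsOpen Ω) (hb : Bornology.IsBounded Ω) (hne : Ω.Nonempty)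
    (hco : IsPreconnected Ωᶜ) (hint : interior (closure Ω) = Ω) (hfr : volume (frontier Ω) = 0)
    (hlam : 0 < lam) {q : ℂ} {R : ℝ} (hR : ∀ x ∈ Ω, ‖x - q‖ ≤ R)
    (hJ : ∀ t, 0 < t → t ≤ √lam * R → J 2 t ≠ 0)
    (h : Sol Ω lam c u G) (hu0 : ¬ (u =ᵐ[volume.restrict Ω] 0)) :
    ∃ (p : ℂ) (r : ℝ), 0 < r ∧ Ω = ball p r := by
  have hm := ho.measurableSet
  have hc := h.c_ne hb hm hlam hu0
  have hk : 0 < √lam := Real.sqrt_pos.2 hlam
  have hkk : √lam ^ 2 = lam := Real.sq_sqrt hlam.le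
  have hfin : IsFiniteMeasure (volume.restrict Ω) := Sol.fin hb
  obtain ⟨A, hA⟩ : ∃ A, A = (volume Ω).toReal := ⟨_, rfl⟩
  have hA0 : 0 < A := by
    rw [hA]
    exact ENNReal.toReal_pos (ho.measure_pos volume hne).ne' hb.measure_lt_top.ne
  obtain ⟨R0, hR0⟩ := hb.exists_norm_le
  have hir : IntegrableOn (fun x : ℂ => x.re) Ω := by
    refine Measure.integrableOn_of_bounded (M := R0) hb.measure_lt_top.ne
      Complex.continuous_re.aestronglyMeasurable ?_
    filter_upwards [ae_restrict_mem hm] with x hx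
    exact (Complex.abs_re_le_norm x).trans (hR0 x hx)
  have hii : IntegrableOn (fun x : ℂ => x.im) Ω := by
    refine Measure.integrableOn_of_bounded (M := R0) hb.measure_lt_top.ne
      Complex.continuous_im.aestronglyMeasurable ?_
    filter_upwards [ae_restrict_mem hm] with x hx
    exact (Complex.abs_im_le_norm x).trans (hR0 x hx)
  obtain ⟨p, hp⟩ : ∃ p : ℂ, p = ⟨(∫ x in Ω, x.re) / A, (∫ x in Ω, x.im) / A⟩ := ⟨_, rfl⟩
  obtain ⟨Ω1, hΩ1⟩ : ∃ Ω1, Ω1 = (fun x : ℂ => x + p) ⁻¹' Ω := ⟨_, rfl⟩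
  have hmem : ∀ x, x ∈ Ω1 ↔ x + p ∈ Ω := fun x => by rw [hΩ1]; rfl
  have hhom : Ω1 = (Homeomorph.addRight p) ⁻¹' Ω := hΩ1
  have ho1 : IsOpen Ω1 := by rw [hΩ1]; exact ho.preimage (by fun_prop)
  have hb1 : Bornology.IsBounded Ω1 := by
    refine (isBounded_closedBall (x := (0 : ℂ)) (r := R0 + ‖p‖)).subset fun x hx => ?_
    rw [mem_closedBall_zero_iff]
    have h1 := hR0 _ ((hmem x).1 hx)
    have h2 : ‖x‖ ≤ ‖x + p‖ + ‖p‖ := by
      have := norm_sub_le (x + p) p
      rwa [add_sub_cancel_right] at this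
    linarith
  have hne1 : Ω1.Nonempty := by
    obtain ⟨x, hx⟩ := hne
    exact ⟨x - p, (hmem _).2 (by rwa [sub_add_cancel])⟩
  have hco1 : IsPreconnected Ω1ᶜ := by
    rw [hhom, ← preimage_compl, Homeomorph.isPreconnected_preimage]
    exact hco
  have hint1 : interior (closure Ω1) = Ω1 := by
    rw [hhom, ← Homeomorph.preimage_closure, ← Homeomorph.preimage_interior, hint]
  have hfr1 : volume (frontier Ω1) = 0 := by
    rw [hhom, ← Homeomorph.preimage_frontier]
    exact ((mp_tr p).measure_preimage isClosed_frontier.measurableSet.nullMeasurableSet).trans hfr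
  have hsol1 : Sol Ω1 lam c (fun x => u (x + p)) (fun x => G (x + p)) := by
    rw [hΩ1]
    exact trans_sol h hm p
  have hint' : ∀ g : ℂ → ℝ, ∫ x in Ω1, g (x + p) = ∫ x in Ω, g x := by
    intro g
    rw [hΩ1]
    exact int_tr p Ω g
  have hcr : ∫ x in Ω1, x.re = 0 := by
    have h1 := hint' (fun x => x.re - p.re)
    simp only [Complex.add_re, add_sub_cancel_right] at h1
    rw [h1, integral_sub hir (integrable_const _)]
    simp only [integral_const, smul_eq_mul, measureReal_def, Measure.restrict_apply_univ]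
    rw [← hA, hp]
    simp only []
    field_simp
    ring
  have hci : ∫ x in Ω1, x.im = 0 := by
    have h1 := hint' (fun x => x.im - p.im)
    simp only [Complex.add_im, add_sub_cancel_right] at h1
    rw [h1, integral_sub hii (integrable_const _)]
    simp only [integral_const, smul_eq_mul, measureReal_def, Measure.restrict_apply_univ]
    rw [← hA, hp]
    simp only []
    field_simp
    ring
  have hR1 : ∀ x ∈ Ω1, ‖x - (q - p)‖ ≤ R := by
    intro x hx
    have h1 := hR _ ((hmem x).1 hx)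
    rwa [show x - (q - p) = x + p - q by ring]
  -- R is positive
  have hRpos : 0 < R := by
    obtain ⟨x, hx⟩ := hne
    by_contra hcon
    push Not at hcon
    obtain ⟨δ, hδ0, hδ⟩ := Metric.isOpen_iff.1 ho x hx
    have hx0 : x = q := sub_eq_zero.1 (norm_le_zero_iff.1 ((hR x hx).trans hcon))
    have h1 : q + ((δ / 2 : ℝ) : ℂ) ∈ Ω := by
      apply hδ
      rw [hx0, mem_ball_iff_norm, add_sub_cancel_left, Complex.norm_real, Real.norm_eq_abs,
        abs_of_pos (by linarith)]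
      linarith
    have h2 := hR _ h1
    rw [add_sub_cancel_left, Complex.norm_real, Real.norm_eq_abs, abs_of_pos (by linarith)] at h2
    linarith
  -- the comparison function
  have hS00 : 0 < lam * R ^ 2 / 4 := by positivity
  obtain ⟨S, hSS, hcomp⟩ := comp_bes (n := 2) hS00.le (by
    intro s hs
    rcases eq_or_lt_of_le hs.1 with h0 | h0
    · rw [← h0, B_zero]; positivity
    · intro hz
      have ht : 0 < 2 * √s := by positivity
      refine hJ (2 * √s) ht ?_ ?_
      · have h1 : s ≤ (√lam * R / 2) ^ 2 := by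
          rw [div_pow, mul_pow, hkk]
          linarith [hs.2]
        have h2 := Real.sqrt_le_sqrt h1
        rw [Real.sqrt_sq (by positivity)] at h2
        linarith
      · rw [J_eq]
        have : (2 * √s) ^ 2 / 4 = s := by
          rw [mul_pow, Real.sq_sqrt h0.le]; ring
        rw [this, hz, mul_zero])
  -- room for the parameters
  obtain ⟨δ, hδ0, hδ1, hδS⟩ : ∃ δ : ℝ, 0 < δ ∧ δ ≤ 1 ∧ (1 + 7 * δ) * (lam * R ^ 2 / 4) ≤ S := by
    refine ⟨min 1 ((S - lam * R ^ 2 / 4) / (7 * (lam * R ^ 2 / 4))), ?_, min_le_left _ _, ?_⟩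
    · exact lt_min one_pos (div_pos (by linarith) (by positivity))
    · have h1 : min 1 ((S - lam * R ^ 2 / 4) / (7 * (lam * R ^ 2 / 4))) * (7 * (lam * R ^ 2 / 4))
          ≤ S - lam * R ^ 2 / 4 := by
        have := min_le_right 1 ((S - lam * R ^ 2 / 4) / (7 * (lam * R ^ 2 / 4)))
        rwa [le_div_iff₀ (by positivity)] at this
      linarith
  have hμb : ((1 + δ) * lam) * ((1 + δ) * R) ^ 2 / 4 ≤ S := by
    have h1 : (1 + δ) ^ 3 ≤ 1 + 7 * δ := by
      nlinarith [mul_nonneg hδ0.le (sub_nonneg.2 hδ1),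
        mul_nonneg (mul_nonneg hδ0.le hδ0.le) (sub_nonneg.2 hδ1)]
    have h2 : ((1 + δ) * lam) * ((1 + δ) * R) ^ 2 / 4 = (1 + δ) ^ 3 * (lam * R ^ 2 / 4) := by ring
    rw [h2]
    exact (mul_le_mul_of_nonneg_right h1 hS00.le).trans hδS
  have hcomp' := comp_mono hcomp hμb
  have hb0 : 0 < (1 + δ) * R := by positivity
  have hC : Coer3 ((1 + δ) * R) ((1 + δ) * lam) := by
    intro v hv hs h0 h1 h2
    exact coer3 hb0 (by positivity) hcomp' hv hs h0 h1 h2
  have hrz : ∀ ψ, SC ψ → ∫ x in Ω1, Lr ψ x = 0 := fun ψ hψ =>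
    rot_zero3 ho1 hfr1 hR1 (show R < (1 + δ) * R by nlinarith)
      hb0 hlam (show lam < (1 + δ) * lam by nlinarith) hC hsol1 hc hcr hci hψ
  obtain ⟨r, hr, hball⟩ := disc_of_rot ho1 hb1 hne1 hco1 hint1
    fun t x hx => rot_inv ho1 hb1 hrz t hx
  refine ⟨p, r, hr, ?_⟩
  ext x
  have h1 : x ∈ Ω ↔ x - p ∈ Ω1 := by
    rw [hmem, sub_add_cancel]
  rw [h1, hball, mem_ball_zero_iff, mem_ball_iff_norm]

end Pool.Agent.TH298.GB
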